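import Pool.Agent.P.MP_26a8c3_nt.QV.St
import Pool.Agent.P.MP_26a8c3_nt.QO.Sym

/-! Summation over the decomposition of the modulus. -/

namespace Pool.Agent.P.MP_26a8c3_nt.QV

open QO QA Finset
open scoped Classical ComplexConjugate

namespace BallP

theorem LL_nonneg {P R : ℝ} (hP : 0 ≤ P) (hR : 0 ≤ R) : 0 ≤ LL P R := by
  unfold LL
  positivity

theorem div_le {x z e : ℝ} (hx : 0 ≤ x) (hz : 1 ≤ z) (he : 1 ≤ e) : (x / z) ^ e ≤ x ^ e / z := by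
  have z0 : 0 < z := by linarith
  rw [Real.div_rpow hx z0.le]
  refine div_le_div_of_nonneg_left (by positivity) z0 ?_
  simpa using Real.rpow_le_rpow_of_exponent_le hz he

theorem LL_le {P Y z K : ℝ} (hP : 0 ≤ P) (hY : 0 ≤ Y) (hz : 1 ≤ z) (hK : 1 ≤ K) :
    LL (P / z) (K * Y / z) ≤ K ^ 2 * LL P Y / z := by
  have z0 : 0 < z := by linarith
  have h1 := div_le hP hz (e := 6 / 5) (by norm_num)
  have h2 := div_le (x := K * Y) (by positivity) hz (e := 33 / 20) (by norm_num)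
  rw [Real.mul_rpow (by linarith) hY] at h2
  have h3 : K ^ (33 / 20 : ℝ) ≤ K ^ 2 := by
    simpa using Real.rpow_le_rpow_of_exponent_le hK (show (33 / 20 : ℝ) ≤ 2 by norm_num)
  have h4 : 1 ≤ K ^ 2 := one_le_pow₀ hK
  have h5 : K ^ (33 / 20 : ℝ) * Y ^ (33 / 20 : ℝ) / z ≤ K ^ 2 * Y ^ (33 / 20 : ℝ) / z := by gcongr
  have h6 : P ^ (6 / 5 : ℝ) / z ≤ K ^ 2 * P ^ (6 / 5 : ℝ) / z := by
    gcongr
    exact le_mul_of_one_le_left (by positivity) h4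
  unfold LL
  rw [mul_add, add_div]
  linarith

/-- one pair `ρ`, `k` -/
theorem inner (h2 : S_Ins) (h3 : S_Exp) (h4 : S_D) (h5 : S_Har) {T : O → O → ℂ} {c₀ C₀ : ℝ}
    {J : ℝ → ℝ → ℂ} (hT : Th T c₀ C₀ J) {Q : O} (hQ : Q ≠ 0) (hQ' : 36 ∣ Q) {ε : ℝ} (hε : 0 < ε) :
    ∃ C : ℝ, 0 ≤ C ∧ ∀ (ν : O → ℂ) (P X t : ℝ) (ρ k : O), IsNu Q ν → 0 < X → ρ ≠ 0 → k ≠ 0 →
      k ∣ Q * ρ → (N ρ : ℝ) ^ 2 * N k ≤ P →
      ∑ g ∈ (bq (P / ((N ρ : ℝ) ^ 2 * N k))).filter (fun g => IsCoprime g (Q * ρ)),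
        ‖Bs ν (ρ ^ 2 * k * g) X t‖ ^ 2 ≤
        C * (1 + |t|) ^ 16 * ((2 + P + P ^ 2 / X) ^ ε) ^ 2 * X * LL P (P ^ 2 / X) *
          ((N ρ : ℝ)⁻¹ * (N k : ℝ)⁻¹) := by
  obtain ⟨m₀, s₀, C₁, m0, s0, c1, hm, hI⟩ := h2 T c₀ C₀ J hT
  obtain ⟨C₂, c2, hD⟩ := h4 T c₀ C₀ J hT ε hε
  obtain ⟨C₃, c3, -, hH⟩ := h5 ε hε
  have c0 := hT.pos
  obtain ⟨M, hM⟩ : ∃ M : ℝ, M = N m₀ * N Q := ⟨_, rfl⟩
  have M1 : 1 ≤ M := hM ▸ one_le_mul_of_one_le_of_one_le (one_le_N m0) (one_le_N hQ)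
  obtain ⟨K, K1, hK⟩ : ∃ K : ℝ, 1 ≤ K ∧ M ^ 2 / (s₀ * c₀) ≤ K :=
    ⟨_, le_max_left _ _, le_max_right _ _⟩
  refine ⟨C₁ * (2 * s₀) * (81 * (C₃ * M * M ^ ε)) * (C₂ * K ^ ε * K ^ 2), by positivity,
    fun ν P X t ρ k hν hX hρ hk hd hP => ?_⟩
  have r1 := one_le_N hρ
  have k1 := one_le_N hk
  obtain ⟨z, hz⟩ : ∃ z : ℝ, z = (N ρ : ℝ) ^ 2 * N k := ⟨_, rfl⟩
  rw [← hz] at hP ⊢
  have z2 : (N ρ : ℝ) ^ 2 ≤ z := hz ▸ le_mul_of_one_le_right (by positivity) k1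
  have z3 : (N ρ : ℝ) ≤ z := le_trans (by nlinarith) z2
  have z1 : 1 ≤ z := r1.trans z3
  have z0 : 0 < z := by linarith
  have P0 : 0 < P := by linarith
  have P1 : 1 ≤ P / z := (one_le_div z0).2 hP
  obtain ⟨Y, hY⟩ : ∃ Y : ℝ, Y = P ^ 2 / X := ⟨_, rfl⟩
  have Y0 : 0 < Y := by rw [hY]; positivity
  have q0 : m₀ * Q * ρ ≠ 0 := mul_ne_zero (mul_ne_zero m0 hQ) hρ
  have nq : (N (m₀ * Q * ρ) : ℝ) = M * N ρ := by rw [hM]; simp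
  have L0 := LL_nonneg P0.le Y0.le
  obtain ⟨E, hE⟩ : ∃ E : ℝ, E = C₂ * (1 + |t|) ^ 16 * (K ^ ε * (2 + P + Y) ^ ε) *
    (K ^ 2 * LL P Y / z) := ⟨_, rfl⟩
  have E0 : 0 ≤ E := by rw [hE]; positivity
  have a1 : ∀ r ∈ dvs (m₀ * Q * ρ), ∀ δ, ∑ g ∈ bq (P / z), ‖Dd T c₀ J r δ g (X * s₀) t‖ ^ 2 ≤ E := by
    intro r hr δ
    rw [dvs, mem_filter, mem_ball, nq] at hr
    have r0 : r ≠ 0 := ne_zero_of_dvd_ne_zero q0 hr.2
    refine (hD r δ (P / z) (X * s₀) t (K * Y / z) r0 P1 (by positivity) ?_).trans ?_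
    · calc ((N r : ℝ) * (P / z)) ^ 2 / (X * s₀ * c₀)
          ≤ (M * N ρ * (P / z)) ^ 2 / (X * s₀ * c₀) := by gcongr; exact hr.1
        _ = M ^ 2 / (s₀ * c₀) * Y / z * ((N ρ : ℝ) ^ 2 / z) := by rw [hY]; field_simp
        _ ≤ K * Y / z * 1 := by gcongr; exact (div_le_one z0).2 z2
        _ = _ := mul_one _
    · rw [hE, ← Real.mul_rpow (by linarith) (by positivity)]
      have : K * Y / z ≤ K * Y := div_le_self (by positivity) z1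
      gcongr
      · exact LL_nonneg (by positivity) (by positivity)
      · nlinarith
      · exact LL_le P0.le Y0.le z1 K1
  have a2 : ∑ r ∈ dvs (m₀ * Q * ρ), (N r : ℝ) ≤ C₃ * M * M ^ ε * (N ρ * (2 + P + Y) ^ ε) := by
    refine (hH _ q0).trans ?_
    rw [nq, Real.mul_rpow (by linarith) (by positivity)]
    have : (N ρ : ℝ) ^ ε ≤ (2 + P + Y) ^ ε := by gcongr; linarith
    calc C₃ * (M * N ρ) * (M ^ ε * (N ρ : ℝ) ^ ε) = C₃ * M * M ^ ε * (N ρ * (N ρ : ℝ) ^ ε) := by ring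
      _ ≤ _ := by gcongr
  calc ∑ g ∈ (bq (P / z)).filter (fun g => IsCoprime g (Q * ρ)), ‖Bs ν (ρ ^ 2 * k * g) X t‖ ^ 2
      ≤ ∑ g ∈ (bq (P / z)).filter (fun g => IsCoprime g (Q * ρ)), C₁ * (2 * (X * s₀) *
          ∑ r ∈ dvs (m₀ * Q * ρ), ∑ δ ∈ res (9 * r), ‖Dd T c₀ J r δ g (X * s₀) t‖ ^ 2) := by
        refine sum_le_sum fun g hg => ?_
        rw [mem_filter, bq, mem_filter] at hg
        obtain ⟨F, f1, f2, f3⟩ := hI Q ν ρ k g X t hQ hQ' hν hX hρ hk hd hg.1.2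
        refine f3.trans (mul_le_mul_of_nonneg_left (h3 T c₀ C₀ J hT _ g F _ t (by positivity) q0
          hg.1.2 ?_ f1 f2) c1)
        rw [mul_assoc]
        exact (hm g hg.1.2).mul_right hg.2
    _ ≤ ∑ g ∈ bq (P / z), C₁ * (2 * (X * s₀) *
          ∑ r ∈ dvs (m₀ * Q * ρ), ∑ δ ∈ res (9 * r), ‖Dd T c₀ J r δ g (X * s₀) t‖ ^ 2) :=
        sum_le_sum_of_subset_of_nonneg (filter_subset _ _) fun _ _ _ => by positivity
    _ = C₁ * (2 * (X * s₀)) * ∑ r ∈ dvs (m₀ * Q * ρ), ∑ δ ∈ res (9 * r),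
          ∑ g ∈ bq (P / z), ‖Dd T c₀ J r δ g (X * s₀) t‖ ^ 2 := by
        have : ∑ g ∈ bq (P / z), ∑ r ∈ dvs (m₀ * Q * ρ), ∑ δ ∈ res (9 * r),
            ‖Dd T c₀ J r δ g (X * s₀) t‖ ^ 2 = ∑ r ∈ dvs (m₀ * Q * ρ), ∑ δ ∈ res (9 * r),
            ∑ g ∈ bq (P / z), ‖Dd T c₀ J r δ g (X * s₀) t‖ ^ 2 := by
          rw [sum_comm]
          exact sum_congr rfl fun r _ => sum_comm
        rw [← mul_sum, ← mul_sum, this, ← mul_assoc]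
    _ ≤ C₁ * (2 * (X * s₀)) * ∑ r ∈ dvs (m₀ * Q * ρ), 81 * (N r : ℝ) * E := by
        gcongr with r hr
        refine (sum_le_sum fun δ _ => a1 r hr δ).trans_eq ?_
        rw [sum_const, card_res, nsmul_eq_mul, map_mul, N_ofNat]
        norm_num
    _ ≤ C₁ * (2 * (X * s₀)) * (81 * (C₃ * M * M ^ ε * (N ρ * (2 + P + Y) ^ ε)) * E) := by
        rw [← sum_mul, ← mul_sum]
        gcongr
    _ = _ := by
        rw [hE, ← hY, hz]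
        field_simp

end BallP

open BallP in
theorem pBall (h1 : S_Dec) (h2 : S_Ins) (h3 : S_Exp) (h4 : S_D) (h5 : S_Har) : S_Ball := by
  intro T c₀ C₀ J hT Q hQ hQ' ε hε
  obtain ⟨C, c0, hC⟩ := inner h2 h3 h4 h5 hT hQ hQ' (ε := ε / 4) (by positivity)
  obtain ⟨C₃, c3, hH, -⟩ := h5 (ε / 4) (by positivity)
  refine ⟨C * C₃ ^ 2, by positivity, fun ν P X t hν hP hX => ?_⟩
  have P0 : 0 < P := by linarith
  have L0 := LL_nonneg P0.le (show 0 ≤ P ^ 2 / X by positivity)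
  let U : O × O → Finset O := fun x =>
    if x.1 ≠ 0 ∧ x.2 ≠ 0 ∧ x.2 ∣ Q * x.1 ∧ (N x.1 : ℝ) ^ 2 * N x.2 ≤ P then
      (bq (P / ((N x.1 : ℝ) ^ 2 * N x.2))).filter (fun g => IsCoprime g (Q * x.1)) else ∅
  have sub : (ball P).erase 0 ⊆ ((ball P ×ˢ ball P).sigma U).image
      fun y => y.1.1 ^ 2 * y.1.2 * y.2 := by
    intro h hh
    rw [mem_erase, mem_ball] at hh
    obtain ⟨ρ, k, g, r0, k0, hk, hg, hc, rfl⟩ := h1 Q h hQ hQ' hh.1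
    have r1 := one_le_N r0
    have k1 := one_le_N k0
    have g1 := one_le_N hg.1.1.ne_zero
    have e : (N ρ : ℝ) ^ 2 * N k * N g ≤ P := by simpa using hh.2
    have e1 : (N ρ : ℝ) ^ 2 * N k ≤ P := (le_mul_of_one_le_right (by positivity) g1).trans e
    have e2 : (1 : ℝ) ≤ (N ρ : ℝ) ^ 2 := one_le_pow₀ r1
    refine mem_image.2 ⟨⟨(ρ, k), g⟩, mem_sigma.2 ⟨mem_product.2 ⟨mem_ball.2 ?_, mem_ball.2 ?_⟩, ?_⟩,
      rfl⟩
    · show (N ρ : ℝ) ≤ P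
      nlinarith
    · show (N k : ℝ) ≤ P
      nlinarith
    · simp only [U]
      rw [if_pos ⟨r0, k0, hk, e1⟩, mem_filter, bq, mem_filter, mem_ball,
        le_div_iff₀ (by positivity)]
      exact ⟨⟨by linarith, hg⟩, hc⟩
  obtain ⟨R, hR⟩ : ∃ R : ℝ, R = (2 + P + P ^ 2 / X) ^ (ε / 4) := ⟨_, rfl⟩
  have R0 : 0 ≤ R := by rw [hR]; positivity
  have hS : ∑ n ∈ ball P, (N n : ℝ)⁻¹ ≤ C₃ * R := by
    refine (hH P P0.le).trans ?_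
    rw [hR]
    have : 0 ≤ P ^ 2 / X := by positivity
    exact mul_le_mul_of_nonneg_left (Real.rpow_le_rpow (by linarith) (by linarith) (by positivity)) c3
  calc ∑ h ∈ (ball P).erase 0, ‖Bs ν h X t‖ ^ 2
      ≤ ∑ y ∈ (ball P ×ˢ ball P).sigma U, ‖Bs ν (y.1.1 ^ 2 * y.1.2 * y.2) X t‖ ^ 2 :=
        (sum_le_sum_of_subset_of_nonneg sub fun _ _ _ => sq_nonneg _).trans
          (sum_image_le_of_nonneg fun _ _ => sq_nonneg _)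
    _ ≤ ∑ x ∈ ball P ×ˢ ball P, C * (1 + |t|) ^ 16 * R ^ 2 * X * LL P (P ^ 2 / X) *
          ((N x.1 : ℝ)⁻¹ * (N x.2 : ℝ)⁻¹) := by
        rw [sum_sigma]
        refine sum_le_sum fun x _ => ?_
        simp only [U]
        split_ifs with h
        · exact hR ▸ hC ν P X t x.1 x.2 hν hX h.1 h.2.1 h.2.2.1 h.2.2.2
        · rw [sum_empty]
          positivity
    _ = C * (1 + |t|) ^ 16 * R ^ 2 * X * LL P (P ^ 2 / X) *
          ((∑ n ∈ ball P, (N n : ℝ)⁻¹) * ∑ n ∈ ball P, (N n : ℝ)⁻¹) := by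
        rw [← mul_sum, sum_mul_sum, sum_product]
    _ ≤ C * (1 + |t|) ^ 16 * R ^ 2 * X * LL P (P ^ 2 / X) * (C₃ * R * (C₃ * R)) := by gcongr
    _ = _ := by
        have : (2 + P + P ^ 2 / X) ^ ε = R ^ 4 := by
          rw [hR, ← Real.rpow_mul_natCast (by positivity)]
          norm_num
        rw [this]
        ring

end Pool.Agent.P.MP_26a8c3_nt.QV
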