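import Pool.Agent.P.MP_26a8c3_nt.QV.St
import Pool.Agent.P.MP_26a8c3_nt.QO.Sym

/-! The mean square of the dual sums. -/

namespace Pool.Agent.P.MP_26a8c3_nt.QV

open QO QA Finset
open scoped Classical ComplexConjugate

namespace DP

lemma summable_pow {t : ℝ} (ht : 1 < t) : Summable fun c : O => (N c : ℝ) ^ (-t) := by
  have h := (EisensteinSeries.summable_one_div_norm_rpow (k := 2 * t) (by linarith)).comp_injective
    (i := fun z : O => ![z.re, z.im]) fun a b e =>
      QuadraticAlgebra.ext (congrFun e 0) (congrFun e 1)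
  refine Summable.of_nonneg_of_le (fun _ => by positivity) (fun z => ?_)
    (h.mul_left ((3 / 4 : ℝ) ^ (-t)))
  rcases eq_or_ne z 0 with rfl | hz
  · rw [map_zero, Nat.cast_zero, Real.zero_rpow (by linarith)]
    exact mul_nonneg (by positivity) (Real.rpow_nonneg (norm_nonneg _) _)
  have h0 : 0 < ‖(![z.re, z.im] : Fin 2 → ℤ)‖ := norm_pos_iff.2 fun e =>
    hz (QuadraticAlgebra.ext (congrFun e 0) (congrFun e 1))
  simp only [Function.comp]
  rw [show -(2 * t) = (2 : ℕ) * (-t) by push_cast; ring, Real.rpow_natCast_mul h0.le,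
    ← Real.mul_rpow (by norm_num) (by positivity)]
  refine Real.rpow_le_rpow_of_nonpos (by positivity) ?_ (by linarith)
  obtain ⟨h1, h2⟩ := abs_le_of_N z
  have h1' : 3 * (z.re : ℝ) ^ 2 ≤ 4 * N z := by exact_mod_cast h1
  have h2' : 3 * (z.im : ℝ) ^ 2 ≤ 4 * N z := by exact_mod_cast h2
  rw [EisensteinSeries.norm_eq_max_natAbs]
  simp only [Matrix.cons_val_zero, Matrix.cons_val_one, Matrix.cons_val_fin_one, Nat.cast_max,
    Nat.cast_natAbs, Int.cast_abs]
  rcases max_cases |(z.re : ℝ)| |(z.im : ℝ)| with e | e <;> rw [e.1, sq_abs] <;> linarith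

lemma summable_two : Summable fun c : O => (N c : ℝ) ^ (-2 : ℝ) := summable_pow one_lt_two

lemma grow {P V z e : ℝ} (hP : 0 ≤ P) (hV : 0 ≤ V) (hz : 1 ≤ z) (h0 : 0 ≤ e) (h1 : e ≤ 1) :
    (1 + z * V) ^ e * LL P (z * V) ≤ (1 + V) ^ e * LL P V * z ^ 3 := by
  have z0 : 0 ≤ z := by linarith
  have a1 : (1 + z * V) ^ e ≤ z * (1 + V) ^ e := by
    calc (1 + z * V) ^ e ≤ (z * (1 + V)) ^ e :=
          Real.rpow_le_rpow (by positivity) (by nlinarith) h0
      _ = z ^ e * (1 + V) ^ e := Real.mul_rpow z0 (by positivity)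
      _ ≤ z * (1 + V) ^ e := by
          gcongr
          simpa using Real.rpow_le_rpow_of_exponent_le hz h1
  have a2 : LL P (z * V) ≤ z ^ 2 * LL P V := by
    have b1 : z ^ (33 / 20 : ℝ) ≤ z ^ 2 := by
      have := Real.rpow_le_rpow_of_exponent_le hz (show (33 / 20 : ℝ) ≤ (2 : ℕ) by norm_num)
      rwa [Real.rpow_natCast] at this
    have b2 : (1 : ℝ) ≤ z ^ 2 := one_le_pow₀ hz
    have b3 : 0 ≤ P ^ (6 / 5 : ℝ) := by positivity
    have b4 : 0 ≤ V ^ (33 / 20 : ℝ) := by positivity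
    rw [LL, LL, Real.mul_rpow z0 hV]
    nlinarith [mul_le_mul_of_nonneg_right b1 b4, mul_le_mul_of_nonneg_right b2 b3]
  have a3 : 0 ≤ LL P (z * V) := by unfold LL; positivity
  calc (1 + z * V) ^ e * LL P (z * V) ≤ z * (1 + V) ^ e * (z ^ 2 * LL P V) := by
        gcongr
    _ = (1 + V) ^ e * LL P V * z ^ 3 := by ring

end DP

theorem pD (ht : S_TS) : S_D := by
  intro T c₀ C₀ J hT ε hε
  obtain ⟨C₁, hC₁, h₁⟩ := ht T c₀ C₀ J hT (min ε 1) (lt_min hε one_pos)
  obtain ⟨C₂, hC₂, h₂⟩ := hT.kr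
  refine ⟨C₂ * C₁, by positivity, fun q δ P X t V hq hP hX hV => ?_⟩
  have c0 := hT.pos
  have q0 := N_pos_real hq
  have P0 : 0 < P := by linarith
  have V0 : 0 < V := lt_of_lt_of_le (by positivity) hV
  have L0 : 0 ≤ LL P V := by unfold LL; positivity
  have key := h₂ (bq P)
    (fun h i => conj (ang i) * T q i * (ab i : ℂ)⁻¹ * (el (-(i * δ)) (9 * q) * eta h i))
    (fun h => X * c₀ / ((N q : ℝ) * N h) ^ 2) V (C₁ * ((1 + V) ^ min ε 1 * LL P V)) t V0
    (by positivity) (fun h => by simp [ang]) (fun h hh => ?_) (fun h _ => ?_)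
    (fun z θ S hz hθ hS => ?_)
  · refine le_trans key ?_
    have : (1 + V) ^ min ε 1 ≤ (1 + V) ^ ε :=
      Real.rpow_le_rpow_of_exponent_le (by linarith) (min_le_left _ _)
    calc C₂ * (1 + |t|) ^ 16 * (C₁ * ((1 + V) ^ min ε 1 * LL P V))
        ≤ C₂ * (1 + |t|) ^ 16 * (C₁ * ((1 + V) ^ ε * LL P V)) := by gcongr
      _ = _ := by ring
  · rw [bq, mem_filter, mem_ball] at hh
    have h0 := N_pos_real hh.2.1.1.ne_zero
    rw [div_le_iff₀ (by positivity)] at hV
    rw [← mul_div_assoc, le_div_iff₀ (by positivity), one_mul]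
    refine le_trans ?_ hV
    have := hh.1
    gcongr
  · refine (DP.summable_two.mul_left C₀).of_nonneg_of_le (fun i => by positivity) fun i => ?_
    refine mul_le_mul_of_nonneg_right ?_ (by positivity)
    by_cases hi : i = 0
    · simp [hi, ang, hT.pos']
    · have a0 := ab_pos hi
      have e : ‖T q i‖ * (ab i)⁻¹ ≤ C₀ := by
        rw [← div_eq_mul_inv, div_le_iff₀ a0]; exact hT.le q i hi
      rw [norm_mul, norm_mul, norm_mul, norm_mul, Complex.norm_conj, norm_ang hi, norm_el,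
        norm_inv, Complex.norm_real, Real.norm_of_nonneg a0.le, one_mul, one_mul]
      exact le_trans (mul_le_of_le_one_right (by positivity) (norm_eta_le h i)) e
  · have z0 : 0 ≤ z := by linarith
    have := h₁ q P (z * V) (fun i => θ i * conj (ang i) * el (-(i * δ)) (9 * q)) S P0.le
      (by positivity) (fun i => by
        rw [norm_mul, norm_mul, norm_el, mul_one, Complex.norm_conj]
        exact mul_le_one₀ (hθ i) (norm_nonneg _) (norm_ang_le i)) hS
    refine le_trans (le_of_eq ?_) (this.trans ?_)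
    · refine sum_congr rfl fun h _ => ?_
      congr 2
      exact sum_congr rfl fun i _ => by ring
    · rw [mul_assoc, mul_assoc]
      exact mul_le_mul_of_nonneg_left
        (DP.grow P0.le V0.le hz (le_min hε.le zero_le_one) (min_le_right _ _)) hC₁

end Pool.Agent.P.MP_26a8c3_nt.QV
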