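import Pool.Agent.P.MP_26a8c3_nt.QV.St
import Pool.Agent.P.MP_26a8c3_nt.QO.FT

/-! Expansion of a periodic function into additive characters. -/

namespace Pool.Agent.P.MP_26a8c3_nt.QV

open QO QA Finset
open scoped Classical ComplexConjugate

namespace ExpP

/-- normal form of a fraction, with the cancelled factor -/
lemma frac' (a q : O) : ∃ (a₁ r s : O) (f : Bool), Primary a₁ ∧
    IsCoprime a₁ r ∧ r * s = q ∧ a₁ * s = a + if f then q else 0 := by
  obtain ⟨a', q', ea, eq, hu⟩ := extract_gcd a q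
  have c : IsCoprime a' q' := (gcd_isUnit_iff _ _).1 hu
  obtain ⟨b, f, hb, cb, e2⟩ : ∃ (b : O) (f : Bool), ¬ lam ∣ b ∧ IsCoprime b q' ∧
      b * gcd a q = a + if f then q else 0 := by
    by_cases h : lam ∣ a'
    · refine ⟨a' + q', true, fun k => prime_lam.not_isUnit
        (c.isUnit_of_dvd' h (by simpa using dvd_sub k h)),
        by simpa using c.add_mul_left_left 1, ?_⟩
      rw [if_pos rfl]
      linear_combination -ea - eq
    · refine ⟨a', false, h, c, ?_⟩
      rw [if_neg (by simp)]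
      linear_combination -ea
  obtain ⟨u, u1, hp⟩ := exists_primary hb
  obtain ⟨v, hv⟩ := u1.exists_right_inv
  refine ⟨u * b, u * q', v * gcd a q, f, hp, (isCoprime_mul_unit_left u1 _ _).2 cb, ?_, ?_⟩
  · linear_combination (q' * gcd a q) * hv - eq
  · linear_combination (b * gcd a q) * hv + e2

lemma exists_d' {a₁ q h : O} (ha : Primary a₁) (hq : IsCoprime a₁ q) (h0 : q ≠ 0) (hh : Primary h)
    (hc : IsCoprime h q) : ∃ d ∈ res (9 * q), 9 * q ∣ a₁ * h ^ 2 * d - 1 := by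
  have p := ha.mul (hh.pow 2)
  have c : IsCoprime (a₁ * h ^ 2) (9 * q) := by
    refine IsCoprime.mul_right ?_ (hq.mul_left hc.pow_left)
    simpa [show (3 : O) ^ 2 = 9 by norm_num] using (p.isCoprime_three.pow_right (n := 2))
  obtain ⟨u, v, e⟩ := c
  obtain ⟨d, hd, k, hk⟩ := res_surj (mul_ne_zero (by norm_num : (9 : O) ≠ 0) h0) u
  exact ⟨d, hd, -v - a₁ * h ^ 2 * k, by linear_combination e - a₁ * h ^ 2 * hk⟩

/-- Parseval bound -/
lemma pars {Q : O} (hQ : Q ≠ 0) {F : O → ℂ} (hF : Per Q F) (h1 : ∀ n, ‖F n‖ ≤ 1) :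
    ∑ y ∈ res Q, ‖ft F Q (-y)‖ ^ 2 ≤ (N Q : ℝ) ^ 2 := by
  have hP : Per Q fun h => ft F Q h * conj (ft F Q h) := (per_ft F Q).mul (per_ft F Q).conj
  have e := sm_scale hP (u := -1) isCoprime_one_left.neg_left
  simp only [neg_mul, one_mul] at e
  rw [sm_ft_mul_conj hQ hF F, sm_eq_res hQ] at e
  have e2 : ((∑ y ∈ res Q, ‖ft F Q (-y)‖ ^ 2 : ℝ) : ℂ) = N Q * sm Q fun x => F x * conj (F x) := by
    rw [← e]
    push_cast
    exact sum_congr rfl fun y _ => by rw [Complex.mul_conj']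
  have e3 : ‖sm Q fun x => F x * conj (F x)‖ ≤ N Q * 1 :=
    norm_sm_le hQ fun x => by
      rw [norm_mul, Complex.norm_conj]
      exact mul_le_one₀ (h1 x) (norm_nonneg _) (h1 x)
  have e4 := congrArg norm e2
  rw [Complex.norm_real, norm_mul, Complex.norm_natCast] at e4
  calc _ ≤ ‖∑ y ∈ res Q, ‖ft F Q (-y)‖ ^ 2‖ := le_abs_self _
    _ ≤ N Q * (N Q * 1) := by rw [e4]; gcongr
    _ = _ := by ring

/-- expansion and Cauchy-Schwarz -/
lemma expand (hs : S_Sum) {T c₀ C₀ J} (hT : Th T c₀ C₀ J) {Q : O} (hQ : Q ≠ 0) {F H : O → ℂ}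
    (hF : Per Q F) (h1 : ∀ n, ‖F n‖ ≤ 1) (h2 : ∀ n, ‖H n‖ ≤ 1) {X : ℝ} (hX : 0 < X) (t : ℝ) :
    ‖Lh T (fun n => F n * H n) X t‖ ^ 2 ≤
      ∑ y ∈ res Q, ‖Lh T (fun n => el (n * y) Q * H n) X t‖ ^ 2 := by
  have hN := N_pos_real hQ
  have e : Lh T (fun n => F n * H n) X t =
      ∑ y ∈ res Q, (N Q : ℂ)⁻¹ * ft F Q (-y) * Lh T (fun n => el (n * y) Q * H n) X t := by
    simp only [Lh, ← tsum_mul_left]
    rw [← Summable.tsum_finsetSum fun y _ =>
      (hs.1 T c₀ C₀ J hT (fun n => el (n * y) Q * H n) 1 X t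
        (fun n => by simpa using h2 n) hX).mul_left _]
    refine tsum_congr fun n => ?_
    rw [ft_inv' hQ hF n, sm_eq_res hQ]
    simp only [mul_sum, sum_mul]
    exact sum_congr rfl fun y _ => by ring
  rw [e]
  refine (pow_le_pow_left₀ (norm_nonneg _) (norm_sum_le _ _) 2).trans ?_
  simp only [norm_mul (_ * _)]
  refine (sum_mul_sq_le_sq_mul_sq _ _ _).trans ?_
  refine mul_le_of_le_one_left (sum_nonneg fun _ _ => by positivity) ?_
  simp only [norm_mul, mul_pow, ← mul_sum, norm_inv, Complex.norm_natCast]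
  rw [inv_pow, inv_mul_le_iff₀ (by positivity), mul_one]
  exact pars hQ hF h1

end ExpP

open ExpP in
theorem pExp (hs : S_Sum) (ht : S_Tw) : S_Exp := by
  intro T c₀ C₀ J hT q h F X t hX hq hh hc hF h1
  have h9 : (9 : O) ≠ 0 := by norm_num
  have hQ : 9 * q ≠ 0 := mul_ne_zero h9 hq
  refine (expand hs hT hQ hF h1 (fun n => by simpa using norm_psi_le h n) hX t).trans ?_
  choose A r s f hA hAr hrs hAs using fun a => frac' a q
  have r0 : ∀ a, r a ≠ 0 := fun a e => hq (by rw [← hrs a, e, zero_mul])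
  have s0 : ∀ a, s a ≠ 0 := fun a e => hq (by rw [← hrs a, e, mul_zero])
  have rd : ∀ a, r a ∣ q := fun a => ⟨s a, (hrs a).symm⟩
  have hcr : ∀ a, IsCoprime h (r a) := fun a => hc.of_isCoprime_of_dvd_right (rd a)
  choose d hd hAd using fun a => exists_d' (hA a) (hAr a) (r0 a) hh.1.1 (hcr a)
  have key : ∀ a, ‖Lh T (fun n => el (n * a) (9 * q) * conj (psi h n)) X t‖ ^ 2 ≤
      X * ‖Dd T c₀ J (r a) (d a) h X t‖ ^ 2 := fun a => by
    refine le_of_eq_of_le ?_ (ht T c₀ C₀ J hT (A a) (r a) (d a) h X t hX (r0 a) (hA a) hh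
      (hcr a) (hAd a))
    congr 2
    refine tsum_congr fun n => ?_
    have e1 : el (n * A a) (9 * r a) = el (n * a) (9 * q) * if f a then el n 9 else 1 := by
      rw [← el_mul_cancel _ _ (s0 a), mul_assoc, mul_assoc, hrs, hAs, mul_add, el_add]
      split_ifs
      · rw [el_mul_cancel _ _ hq]
      · simp
    have e2 : T 0 n * (if f a then el n 9 else 1) = T 0 n := by
      split_ifs
      · exact hT.t1 n
      · simp
    simp only [e1]
    linear_combination (-(ang n * el (n * a) (9 * q) * conj (psi h n) * W X t (N n))) * e2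
  let φ : O → Bool × (Σ _ : O, O) := fun a => (f a, ⟨r a, d a⟩)
  let g : Bool × (Σ _ : O, O) → ℝ := fun z => X * ‖Dd T c₀ J z.2.1 z.2.2 h X t‖ ^ 2
  have inj : Set.InjOn φ (res (9 * q) : Finset O) := by
    intro a ha b hb e
    simp only [φ, Prod.mk.injEq, Sigma.mk.injEq, heq_eq_eq] at e
    obtain ⟨e1, e2, e3⟩ := e
    have e4 : s a = s b := mul_left_cancel₀ (r0 a) (by rw [hrs a, e2, hrs b])
    obtain ⟨x, hx⟩ := hAd a
    obtain ⟨y, hy⟩ := hAd b
    have ea := hAs a
    have eb := hAs b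
    have er := hrs a
    rw [← e2, ← e3] at hy
    rw [← e1, ← e4] at eb
    refine res_inj hQ ha hb ⟨A b * x - A a * y, ?_⟩
    linear_combination eb - ea + (A b * s a) * hx - (A a * s a) * hy +
      9 * (A b * x - A a * y) * er
  calc _ ≤ ∑ a ∈ res (9 * q), g (φ a) := sum_le_sum fun a _ => key a
    _ = ∑ z ∈ (res (9 * q)).image φ, g z := (sum_image inj).symm
    _ ≤ ∑ z ∈ (univ : Finset Bool) ×ˢ ((dvs q).sigma fun r => res (9 * r)), g z := by
        refine sum_le_sum_of_subset_of_nonneg (fun z hz => ?_) fun z _ _ => by positivity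
        obtain ⟨a, -, rfl⟩ := mem_image.1 hz
        simp only [φ, mem_product, mem_univ, mem_sigma, true_and, dvs, mem_filter]
        refine ⟨⟨?_, rd a⟩, hd a⟩
        simpa [ball] using N_le_of_dvd (rd a) hq
    _ = _ := by
        rw [sum_product]
        simp only [g, sum_sigma, sum_const, card_univ, Fintype.card_bool, nsmul_eq_mul, ← mul_sum]
        push_cast
        ring

end Pool.Agent.P.MP_26a8c3_nt.QV
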