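import Pool.Agent.P.MP_26a8c3_nt.QV.St

/-! From balls to the Gaussian weight. -/

namespace Pool.Agent.P.MP_26a8c3_nt.QV

open QO QA Finset
open scoped Classical

namespace GauP

theorem a0p : 0 < a0 := by
  unfold a0
  positivity

theorem memb {Y : ℝ} {h : O} : h ∈ ball Y ↔ (N h : ℝ) ≤ Y := by
  simp [ball]

theorem summ (k : ℕ) : Summable fun j : ℕ => Real.exp (-(a0 * j)) * ((j : ℝ) + 1) ^ k := by
  have h := (summable_nat_add_iff 1).2 (Real.summable_pow_mul_exp_neg_nat_mul k a0p)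
  refine (h.mul_left (Real.exp a0)).congr fun j => ?_
  push_cast
  rw [mul_comm (((j : ℝ) + 1) ^ k), ← mul_assoc, ← Real.exp_add]
  congr 2
  ring

theorem LL_nonneg {P R : ℝ} (hP : 0 ≤ P) (hR : 0 ≤ R) : 0 ≤ LL P R := by
  unfold LL
  positivity

theorem LL_scale {z P R : ℝ} (hz : 1 ≤ z) (hP : 0 ≤ P) (hR : 0 ≤ R) :
    LL (z * P) (z ^ 2 * R) ≤ z ^ 4 * LL P R := by
  have hz0 : 0 ≤ z := zero_le_one.trans hz
  have h1 : z ^ (6 / 5 : ℝ) ≤ z ^ 4 := by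
    rw [← Real.rpow_natCast]
    exact Real.rpow_le_rpow_of_exponent_le hz (by norm_num)
  have h2 : (z ^ 2) ^ (33 / 20 : ℝ) ≤ z ^ 4 := by
    rw [← Real.rpow_natCast z 2, ← Real.rpow_mul hz0, ← Real.rpow_natCast]
    exact Real.rpow_le_rpow_of_exponent_le hz (by norm_num)
  unfold LL
  rw [Real.mul_rpow hz0 hP, Real.mul_rpow (by positivity) hR, mul_add]
  exact add_le_add (mul_le_mul_of_nonneg_right h1 (by positivity))
    (mul_le_mul_of_nonneg_right h2 (by positivity))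

theorem eps_scale {z P R ε : ℝ} (hz : 1 ≤ z) (hP : 0 ≤ P) (hR : 0 ≤ R) (hε : 0 < ε) :
    (2 + z * P + z ^ 2 * R) ^ ε ≤ z ^ (2 * ⌈ε⌉₊) * (2 + P + R) ^ ε := by
  have hz0 : 0 ≤ z := zero_le_one.trans hz
  have hz2 : 1 ≤ z ^ 2 := one_le_pow₀ hz
  have h1 : 2 + z * P + z ^ 2 * R ≤ z ^ 2 * (2 + P + R) := by
    have : z * P ≤ z ^ 2 * P := mul_le_mul_of_nonneg_right (by nlinarith) hP
    nlinarith
  refine (Real.rpow_le_rpow (by positivity) h1 hε.le).trans ?_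
  rw [Real.mul_rpow (by positivity) (by positivity), pow_mul]
  refine mul_le_mul_of_nonneg_right ?_ (by positivity)
  rw [← Real.rpow_natCast (z ^ 2) ⌈ε⌉₊]
  exact Real.rpow_le_rpow_of_exponent_le hz2 (Nat.le_ceil ε)

theorem layer (f : O → ℝ) (hf : ∀ h, 0 ≤ f h) (s : Finset O) (hs : 0 ∉ s) {P : ℝ} (hP : 0 < P) :
    ∃ J : ℕ, ∑ h ∈ s, G (N h / P) * f h ≤
      ∑ j ∈ range J, Real.exp (-(a0 * j)) * ∑ h ∈ (ball (((j : ℝ) + 1) * P)).erase 0, f h := by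
  refine ⟨s.sup (fun h => ⌊(N h : ℝ) / P⌋₊) + 1, ?_⟩
  have hm : ∀ h ∈ s, ⌊(N h : ℝ) / P⌋₊ ∈ range (s.sup (fun h => ⌊(N h : ℝ) / P⌋₊) + 1) :=
    fun h hh => mem_range.2 (Nat.lt_succ_of_le (le_sup (f := fun h => ⌊(N h : ℝ) / P⌋₊) hh))
  rw [← sum_fiberwise_of_maps_to hm]
  refine sum_le_sum fun j _ => ?_
  rw [mul_sum]
  refine (sum_le_sum fun h hh => ?_).trans
    (sum_le_sum_of_subset_of_nonneg (fun h hh => ?_)
      fun h _ _ => mul_nonneg (Real.exp_pos _).le (hf h))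
  · refine mul_le_mul_of_nonneg_right ?_ (hf h)
    rw [G, ← (mem_filter.1 hh).2]
    refine Real.exp_le_exp.2 (neg_le_neg (mul_le_mul_of_nonneg_left ?_ a0p.le))
    exact Nat.floor_le (by positivity)
  · obtain ⟨h1, h2⟩ := mem_filter.1 hh
    refine mem_erase.2 ⟨fun e => hs (e ▸ h1), memb.2 ?_⟩
    rw [← div_le_iff₀ hP, ← h2]
    exact (Nat.lt_floor_add_one _).le

end GauP

theorem pGau : S_Gau := by
  intro hV Q hQ h36 ε hε
  obtain ⟨C, hC, H⟩ := hV Q hQ h36 ε hε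
  have hS := GauP.summ (2 * ⌈ε⌉₊ + 4)
  set K := ∑' j : ℕ, Real.exp (-(a0 * j)) * ((j : ℝ) + 1) ^ (2 * ⌈ε⌉₊ + 4) with hK
  have hK0 : 0 ≤ K := tsum_nonneg fun j => by positivity
  refine ⟨C * K + 1, by positivity, fun ν hν P X t s hP hX hs => ?_⟩
  have hP0 : 0 < P := one_pos.trans_le hP
  obtain ⟨J, hJ⟩ := GauP.layer (fun h => ‖Bs ν h X t‖ ^ 2) (fun h => by positivity) s hs hP0
  have hR : 0 ≤ P ^ 2 / X := by positivity
  have hL := GauP.LL_nonneg hP0.le hR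
  set M := (1 + |t|) ^ 16 * (2 + P + P ^ 2 / X) ^ ε * X * LL P (P ^ 2 / X) with hM
  have hM0 : 0 ≤ M := by positivity
  have key : ∀ j : ℕ, ∑ h ∈ (ball (((j : ℝ) + 1) * P)).erase 0, ‖Bs ν h X t‖ ^ 2 ≤
      ((j : ℝ) + 1) ^ (2 * ⌈ε⌉₊ + 4) * (C * M) := by
    intro j
    have hz : (1 : ℝ) ≤ (j : ℝ) + 1 := by
      have : (0 : ℝ) ≤ j := Nat.cast_nonneg j
      linarith
    set z : ℝ := (j : ℝ) + 1 with hzd
    refine (H ν (z * P) X t hν (by nlinarith) hX).trans ?_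
    have e : (z * P) ^ 2 / X = z ^ 2 * (P ^ 2 / X) := by ring
    rw [e]
    have h1 := GauP.eps_scale hz hP0.le hR hε
    have h2 := GauP.LL_scale hz hP0.le hR
    have h3 : 0 ≤ LL (z * P) (z ^ 2 * (P ^ 2 / X)) :=
      GauP.LL_nonneg (by positivity) (by positivity)
    calc C * (1 + |t|) ^ 16 * (2 + z * P + z ^ 2 * (P ^ 2 / X)) ^ ε * X *
          LL (z * P) (z ^ 2 * (P ^ 2 / X))
        ≤ C * (1 + |t|) ^ 16 * (z ^ (2 * ⌈ε⌉₊) * (2 + P + P ^ 2 / X) ^ ε) * X *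
          (z ^ 4 * LL P (P ^ 2 / X)) := by gcongr
      _ = z ^ (2 * ⌈ε⌉₊ + 4) * (C * M) := by rw [hM, pow_add]; ring
  calc ∑ h ∈ s, G (N h / P) * ‖Bs ν h X t‖ ^ 2
      ≤ ∑ j ∈ range J, Real.exp (-(a0 * j)) * (((j : ℝ) + 1) ^ (2 * ⌈ε⌉₊ + 4) * (C * M)) :=
        hJ.trans (sum_le_sum fun j _ => mul_le_mul_of_nonneg_left (key j) (Real.exp_pos _).le)
    _ = (∑ j ∈ range J, Real.exp (-(a0 * j)) * ((j : ℝ) + 1) ^ (2 * ⌈ε⌉₊ + 4)) * (C * M) := by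
        rw [sum_mul]
        exact sum_congr rfl fun j _ => by ring
    _ ≤ K * (C * M) :=
        mul_le_mul_of_nonneg_right (hS.sum_le_tsum _ fun j _ => by positivity) (by positivity)
    _ ≤ (C * K + 1) * M := by nlinarith
    _ = _ := by rw [hM]; ring

end Pool.Agent.P.MP_26a8c3_nt.QV
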