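import Pool.Agent.P.MP_26a8c3_nt.QV.St

/-! Harmonic sums over the Eisenstein integers and the decomposition of the modulus. -/

namespace Pool.Agent.P.MP_26a8c3_nt.QV

open QO QA Finset
open scoped Classical ComplexConjugate

namespace HarP

theorem summable_N {t : ℝ} (ht : 1 < t) : Summable fun c : O => (N c : ℝ) ^ (-t) := by
  have h := (EisensteinSeries.summable_one_div_norm_rpow (k := 2 * t) (by linarith)).comp_injective
    (i := fun z : O => ![z.re, z.im]) fun a b e =>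
      QuadraticAlgebra.ext (congrFun e 0) (congrFun e 1)
  refine Summable.of_nonneg_of_le (fun _ => by positivity) (fun z => ?_)
    (h.mul_left ((3 / 4 : ℝ) ^ (-t)))
  rcases eq_or_ne z 0 with rfl | hz
  · rw [map_zero, Nat.cast_zero, Real.zero_rpow (by linarith)]
    exact mul_nonneg (by positivity) (Real.rpow_nonneg (norm_nonneg _) _)
  have h0 : 0 < ‖(![z.re, z.im] : Fin 2 → ℤ)‖ := norm_pos_iff.2 fun e =>
    hz (QuadraticAlgebra.ext (congrFun e 0) (congrFun e 1))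
  simp only [Function.comp]
  rw [show -(2 * t) = (2 : ℕ) * (-t) by push_cast; ring, Real.rpow_natCast_mul h0.le,
    ← Real.mul_rpow (by norm_num) (by positivity)]
  refine Real.rpow_le_rpow_of_nonpos (by positivity) ?_ (by linarith)
  obtain ⟨h1, h2⟩ := abs_le_of_N z
  have h1' : 3 * (z.re : ℝ) ^ 2 ≤ 4 * N z := by exact_mod_cast h1
  have h2' : 3 * (z.im : ℝ) ^ 2 ≤ 4 * N z := by exact_mod_cast h2
  rw [EisensteinSeries.norm_eq_max_natAbs]
  simp only [Matrix.cons_val_zero, Matrix.cons_val_one, Matrix.cons_val_fin_one, Nat.cast_max,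
    Nat.cast_natAbs, Int.cast_abs]
  rcases max_cases |(z.re : ℝ)| |(z.im : ℝ)| with e | e <;> rw [e.1, sq_abs] <;> linarith

lemma mem_ball {Y : ℝ} {n : O} : n ∈ ball Y ↔ (N n : ℝ) ≤ Y := by simp [ball]

lemma harm {ε : ℝ} (hε : 0 < ε) {R : ℝ} (hR : 0 ≤ R) :
    ∑ n ∈ ball R, (N n : ℝ)⁻¹ ≤ (∑' c : O, (N c : ℝ) ^ (-(1 + ε))) * (1 + R) ^ ε := by
  have hs := summable_N (t := 1 + ε) (by linarith)
  refine le_trans ?_ (mul_le_mul_of_nonneg_right
    (hs.sum_le_tsum (ball R) fun _ _ => by positivity) (by positivity))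
  rw [sum_mul]
  refine sum_le_sum fun n hn => ?_
  rcases eq_or_ne n 0 with rfl | h0
  · rw [map_zero, Nat.cast_zero, inv_zero]; positivity
  have hN := N_pos_real h0
  have h1 : (N n : ℝ)⁻¹ = (N n : ℝ) ^ (-(1 + ε)) * (N n : ℝ) ^ ε := by
    rw [← Real.rpow_add hN, show -(1 + ε) + ε = -1 by ring, Real.rpow_neg_one]
  rw [h1]
  refine mul_le_mul_of_nonneg_left (Real.rpow_le_rpow hN.le ?_ hε.le) (by positivity)
  linarith [mem_ball.1 hn]

lemma mul_quo {a e : O} (h : e ∣ a) : e * quo a e = a := by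
  rw [quo, dif_pos h]
  exact h.choose_spec.symm

lemma divs {q : O} (hq : q ≠ 0) :
    ∑ r ∈ dvs q, (N r : ℝ) ≤ N q * ∑ n ∈ ball (N q), (N n : ℝ)⁻¹ := by
  have hd : ∀ r ∈ dvs q, r * quo q r = q := fun r hr => mul_quo (mem_filter.1 hr).2
  have h0 : ∀ r ∈ dvs q, quo q r ≠ 0 := fun r hr h => hq (by rw [← hd r hr, h, mul_zero])
  have h1 : ∑ r ∈ dvs q, (N r : ℝ) = N q * ∑ r ∈ dvs q, (N (quo q r) : ℝ)⁻¹ := by
    rw [mul_sum]
    refine sum_congr rfl fun r hr => ?_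
    have hN := N_pos_real (h0 r hr)
    have h2 : (N q : ℝ) = N r * N (quo q r) := by
      conv_lhs => rw [← hd r hr]
      rw [map_mul]; push_cast; ring
    rw [h2]; field_simp
  rw [h1]
  refine mul_le_mul_of_nonneg_left ?_ (by positivity)
  have hi : Set.InjOn (quo q) (dvs q : Set O) := by
    intro r hr r' hr' h
    have e1 := hd r hr
    have e2 := hd r' hr'
    rw [← h] at e2
    exact mul_right_cancel₀ (h0 r hr) (e1.trans e2.symm)
  rw [← sum_image (f := fun n => (N n : ℝ)⁻¹) hi]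
  refine sum_le_sum_of_subset_of_nonneg (fun n hn => ?_) fun _ _ _ => by positivity
  obtain ⟨r, hr, rfl⟩ := mem_image.1 hn
  rw [mem_ball]
  exact_mod_cast N_le_of_dvd (Dvd.intro_left r (hd r hr)) hq

lemma sq_mul {h : O} (hh : h ≠ 0) : ∃ ρ s : O, Squarefree s ∧ h = ρ ^ 2 * s := by
  induction h using WfDvdMonoid.induction_on_irreducible with
  | zero => contradiction
  | unit u hu => exact ⟨1, u, hu.squarefree, by ring⟩
  | mul z p hz hp ih =>
    obtain ⟨ρ, s, hs, rfl⟩ := ih hz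
    by_cases hp' : p ∣ s
    · obtain ⟨s', rfl⟩ := hp'
      exact ⟨ρ * p, s', hs.of_mul_right, by ring⟩
    · exact ⟨ρ, p * s,
        squarefree_mul_iff.mpr ⟨hp.isRelPrime_iff_not_dvd.mpr hp', hp.squarefree, hs⟩, by ring⟩

end HarP

theorem pHar : S_Har := by
  intro ε hε
  set Z : ℝ := ∑' c : O, (N c : ℝ) ^ (-(1 + ε)) with hZ
  have hZ0 : 0 ≤ Z := tsum_nonneg fun _ => by positivity
  have h2 : (1 : ℝ) ≤ 2 ^ ε := Real.one_le_rpow (by norm_num) hε.le
  refine ⟨Z * 2 ^ ε, by positivity, fun R hR => ?_, fun q hq => ?_⟩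
  · refine (HarP.harm hε hR).trans (mul_le_mul_of_nonneg_right ?_ (by positivity))
    nlinarith
  · have h1 := one_le_N hq
    have h3 : (1 + (N q : ℝ)) ^ ε ≤ 2 ^ ε * (N q : ℝ) ^ ε := by
      rw [← Real.mul_rpow (by norm_num) (by linarith)]
      exact Real.rpow_le_rpow (by linarith) (by linarith) hε.le
    calc ∑ r ∈ dvs q, (N r : ℝ) ≤ N q * (Z * (1 + (N q : ℝ)) ^ ε) :=
          (HarP.divs hq).trans
            (mul_le_mul_of_nonneg_left (HarP.harm hε (by linarith)) (by linarith))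
      _ ≤ N q * (Z * (2 ^ ε * (N q : ℝ) ^ ε)) :=
          mul_le_mul_of_nonneg_left (mul_le_mul_of_nonneg_left h3 hZ0) (by linarith)
      _ = _ := by ring

theorem pDec : S_Dec := by
  intro Q h _ h36 hh
  obtain ⟨ρ, s, hs, rfl⟩ := HarP.sq_mul hh
  have hρ : ρ ≠ 0 := by rintro rfl; simp at hh
  have hs0 : s ≠ 0 := hs.ne_zero
  obtain ⟨s', hs'⟩ : gcd s (Q * ρ) ∣ s := gcd_dvd_left _ _
  have hsq : Squarefree (gcd s (Q * ρ) * s') := hs' ▸ hs
  obtain ⟨hrel, -, hsf⟩ := squarefree_mul_iff.1 hsq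
  have hco : IsRelPrime s' (Q * ρ) := fun c h1 h2 =>
    hrel (dvd_gcd (h1.trans (Dvd.intro_left _ hs'.symm)) h2) h1
  have h36' : (36 : O) ∣ Q * ρ := h36.mul_right ρ
  have hl : ¬lam ∣ s' := fun hd =>
    prime_lam.not_isUnit (hco hd (lam_dvd_three.trans ((Dvd.intro 12 (by norm_num)).trans h36')))
  obtain ⟨u, hu, hp⟩ := exists_primary hl
  obtain ⟨v, hv⟩ := hu.exists_right_inv
  have hvu : IsUnit v := IsUnit.of_mul_eq_one_right u hv
  have hcg : IsCoprime (u * s') (Q * ρ) :=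
    (isCoprime_mul_unit_left_left hu _ _).2 (isRelPrime_iff_isCoprime.1 hco)
  have hd0 : gcd s (Q * ρ) ≠ 0 := fun e => hs0 (by rw [hs', e, zero_mul])
  refine ⟨ρ, gcd s (Q * ρ) * v, u * s', hρ, mul_ne_zero hd0 hvu.ne_zero,
    hvu.mul_right_dvd.2 (gcd_dvd_right _ _), ⟨⟨hp, ?_⟩, ?_⟩, hcg, ?_⟩
  · exact hsf.squarefree_of_dvd (hu.mul_left_dvd.2 dvd_rfl)
  · exact hcg.of_isCoprime_of_dvd_right ((Dvd.intro 18 (by norm_num)).trans h36')
  · conv_lhs => rw [hs']
    linear_combination (-(ρ ^ 2 * gcd s (Q * ρ) * s')) * hv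

end Pool.Agent.P.MP_26a8c3_nt.QV
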