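import Pool.Agent.P.MP_26a8c3_nt.QV.St
import Pool.Agent.P.MP_26a8c3_nt.QO.Sym

/-! Insertion of the theta coefficients. -/

namespace Pool.Agent.P.MP_26a8c3_nt.QV

open QO QA
open scoped Classical ComplexConjugate

namespace InsP

lemma dec_unique {c d c' d' : O} (hc : SQ c) (hd : Primary d) (hc' : SQ c') (hd' : Primary d')
    (h : c * d ^ 3 = c' * d' ^ 3) : c = c' ∧ d = d' := by
  obtain ⟨a, b, ha, hb, hab⟩ := extract_gcd d d'
  have hco : IsCoprime a b := (gcd_isUnit_iff a b).1 hab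
  generalize gcd d d' = g at ha hb
  have hg : g ≠ 0 := by rintro rfl; exact hd.ne_zero (by rw [ha, zero_mul])
  have e : c * a ^ 3 = c' * b ^ 3 :=
    mul_left_cancel₀ (pow_ne_zero 3 hg) (by rw [ha, hb] at h; linear_combination h)
  have key : ∀ {c c' a b : O}, Squarefree c → IsCoprime a b → c * a ^ 3 = c' * b ^ 3 → IsUnit b := by
    intro c c' a b hs hco e
    have h1 : b ^ 3 ∣ c :=
      (hco.symm.pow (m := 3) (n := 3)).dvd_of_dvd_mul_right (e ▸ dvd_mul_left _ _)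
    exact hs b ((Dvd.intro b (by ring)).trans h1)
  have u1 := key hc.2 hco e
  have u2 := key hc'.2 hco.symm e.symm
  have e2 : d = d' := hd.eq_of_associated hd' (by
    rw [ha, hb]
    exact (associated_mul_unit_left g a u2).trans (associated_mul_unit_left g b u1).symm)
  subst e2
  exact ⟨mul_right_cancel₀ (pow_ne_zero 3 hd.ne_zero) h, rfl⟩

lemma lp_ne {n : O} (h : Lp n) : n ≠ 0 := by
  obtain ⟨k, hk⟩ := h
  exact ne_zero_of_dvd_ne_zero (pow_ne_zero k lam_ne_zero) hk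

lemma lp_cop {n g : O} (h : Lp n) (hg : Primary g) : IsCoprime g n := by
  obtain ⟨k, hk⟩ := h
  exact (hg.isCoprime_lam.pow_right (n := k)).of_isCoprime_of_dvd_right hk

/-- the periodic factor on primary arguments -/
noncomputable def F0 (ν : O → ℂ) (n₀ h g n : O) : ℂ :=
  ν n * conj (psi n h) * xi g n * conj (chi n (3 * n₀))

/-- the periodic factor -/
noncomputable def FF (ν : O → ℂ) (n₀ h g x : O) : ℂ :=
  if n₀ ∣ x ∧ Primary (quo x n₀) then F0 ν n₀ h g (quo x n₀) else 0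

lemma FF_mul (ν : O → ℂ) {n₀ : O} (h0 : n₀ ≠ 0) (h g n : O) :
    FF ν n₀ h g (n₀ * n) = if Primary n then F0 ν n₀ h g n else 0 := by
  simp only [FF, quo_mul h0, dvd_mul_right, true_and]

lemma norm_F0 (A : Alg) {Q : O} {ν : O → ℂ} (hν : IsNu Q ν) (n₀ h : O) {g : O} (hg : Od g)
    (n : O) : ‖F0 ν n₀ h g n‖ ≤ 1 := by
  have h1 := hν.le n
  have h2 := norm_psi_le n h
  have h3 := (A.gam.2.2.2.2.2.2.1 g hg).le n
  have h4 := norm_chi_le n (3 * n₀)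
  rw [F0, norm_mul, norm_mul, norm_mul, Complex.norm_conj, Complex.norm_conj]
  exact mul_le_one₀ (mul_le_one₀ (mul_le_one₀ h1 (norm_nonneg _) h2) (norm_nonneg _) h3)
    (norm_nonneg _) h4

lemma zero_of_not {Q ρ k n : O} {ν : O → ℂ} (hν : IsNu Q ν) (hn : n ≠ 0)
    (h : ¬IsCoprime n (Q * ρ)) : ν n * conj (psi n (ρ ^ 2 * k)) = 0 := by
  by_cases h1 : IsCoprime n Q
  · have h2 : ¬IsCoprime (ρ ^ 2 * k) n := fun e =>
      h (h1.mul_right (e.symm.of_isCoprime_of_dvd_right ⟨ρ * k, by ring⟩))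
    rw [(psi_eq_zero hn).2 h2, map_zero, mul_zero]
  · rw [hν.zero n h1, zero_mul]

lemma F0_per (A : Alg) {Q ρ k g n₀ n n' : O} {ν : O → ℂ} (hQ : 36 ∣ Q) (hν : IsNu Q ν)
    (hρ : ρ ≠ 0) (hk : k ≠ 0) (hd : k ∣ Q * ρ) (hg : Od g) (hn : Primary n) (hn' : Primary n')
    (h : 18 * n₀ * Q * ρ ∣ n - n') : F0 ν n₀ (ρ ^ 2 * k) g n = F0 ν n₀ (ρ ^ 2 * k) g n' := by
  have d1 : 2 * (Q * ρ) ∣ n - n' := (Dvd.intro (9 * n₀) (by ring)).trans h
  have d2 : Q ∣ n - n' := (Dvd.intro (2 * ρ) (by ring)).trans d1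
  have e1 : ν n * conj (psi n (ρ ^ 2 * k)) = ν n' * conj (psi n' (ρ ^ 2 * k)) := by
    by_cases hc : IsCoprime n (Q * ρ)
    · rw [hν.per n n' d2, A.per (Q * ρ) (ρ ^ 2 * k) n n' (hQ.mul_right _)
        (mul_ne_zero (pow_ne_zero 2 hρ) hk) (fun p hp e => ?_) hn hn' hc d1]
      rcases hp.dvd_or_dvd e with e | e
      · exact (hp.dvd_of_dvd_pow e).mul_left _
      · exact e.trans hd
    · rw [zero_of_not hν hn.ne_zero hc, zero_of_not hν hn'.ne_zero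
        (mt (isCoprime_congr ((dvd_mul_left _ 2).trans d1)).2 hc)]
  have e2 : xi g n = xi g n' := (A.gam.2.2.2.2.2.2.1 g hg).per n n'
    (((Dvd.intro 9 (by norm_num)).trans hQ).trans d2)
  have e3 : chi n (3 * n₀) = chi n' (3 * n₀) := A.r2 _ n n' hn hn'
    ((Dvd.intro (2 * n₀ * Q * ρ) (by ring)).trans h) ((Dvd.intro (6 * Q * ρ) (by ring)).trans h)
  rw [F0, F0, e1, e2, e3]

lemma FF_per (A : Alg) {Q ρ k g n₀ : O} {ν : O → ℂ} (h0 : n₀ ≠ 0) (hQ : 36 ∣ Q) (hν : IsNu Q ν)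
    (hρ : ρ ≠ 0) (hk : k ≠ 0) (hd : k ∣ Q * ρ) (hg : Od g) :
    Per (9 * (2 * n₀ ^ 2 * Q * ρ)) (FF ν n₀ (ρ ^ 2 * k) g) := by
  intro x y ⟨s, hs⟩
  have d0 : n₀ ∣ x - y := ⟨18 * n₀ * Q * ρ * s, by rw [hs]; ring⟩
  by_cases hy : n₀ ∣ y
  · obtain ⟨n', rfl⟩ := hy
    have e : x = n₀ * (n' + 18 * n₀ * Q * ρ * s) := by linear_combination hs
    have d1 : 18 * n₀ * Q * ρ ∣ n' + 18 * n₀ * Q * ρ * s - n' := ⟨s, by ring⟩
    have d3 : (3 : O) ∣ n' + 18 * n₀ * Q * ρ * s - n' := ⟨6 * n₀ * Q * ρ * s, by ring⟩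
    rw [e, FF_mul ν h0, FF_mul ν h0]
    by_cases hp : Primary n'
    · rw [if_pos hp, if_pos (hp.of_dvd_sub d3)]
      exact F0_per A hQ hν hρ hk hd hg (hp.of_dvd_sub d3) hp d1
    · rw [if_neg hp, if_neg fun e => hp (e.of_dvd_sub (dvd_sub_comm.1 d3))]
  · rw [FF, FF, if_neg fun e => hy ((dvd_congr d0).1 e.1), if_neg fun e => hy e.1]

/-- the twist by the full modulus in terms of the periodic factor -/
lemma twist (A : Alg) {Q g n₀ h c d : O} {ν : O → ℂ} (h0 : Lp n₀) (hQ : 36 ∣ Q) (hν : IsNu Q ν)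
    (hg : SQO g) (hc : SQ c) (hd : Primary d) :
    chi c (3 * n₀) * F0 ν n₀ h g (c * d ^ 3) * conj (psi g (c * d ^ 3)) =
      ν (c * d ^ 3) * conj (psi (c * d ^ 3) (h * g)) := by
  have hm : Primary (c * d ^ 3) := hc.1.mul (hd.pow 3)
  have co : ∀ {a : O}, Primary a → IsCoprime (3 * n₀) a := fun ha =>
    (ha.isCoprime_three.mul_right (lp_cop h0 ha)).symm
  have e1 : chi (c * d ^ 3) (3 * n₀) = chi c (3 * n₀) := by
    rw [chi_mul_left hc.ne_zero (hd.pow 3).ne_zero, chi_pow_left, chi_cube hd.ne_zero,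
      cop_of (co hd), mul_one]
  have e2 : chi c (3 * n₀) * conj (chi c (3 * n₀)) = 1 := by
    rw [chi_mul_conj hc.ne_zero, cop_of (co hc.1)]
  rw [F0, e1]
  generalize c * d ^ 3 = m at hm
  by_cases ho : Od m
  · have e3 : conj (xi g m) = xi g m := by
      rcases A.gam.2.2.2.2.2.1 g m hg.2 ho with e | e <;> simp [e]
    rw [psi_mul, A.qr.2.2 m g hm hg.1.1 ho hg.2, A.gam.2.2.2.2.1 m g, map_mul, map_mul, e3]
    linear_combination ν m * conj (psi m h) * xi g m * conj (psi g m) * e2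
  · have : ν m = 0 := hν.zero m fun e =>
      ho (e.of_isCoprime_of_dvd_right ((Dvd.intro 18 (by norm_num)).trans hQ))
    simp [this]

lemma main (A : Alg) {T : O → O → ℂ} {c₀ C₀ : ℝ} {J : ℝ → ℝ → ℂ} (hT : Th T c₀ C₀ J)
    {Q g n₀ : O} (h : O) {ν : O → ℂ} (h0 : Lp n₀) (hQ : 36 ∣ Q) (hν : IsNu Q ν) (hg : SQO g)
    {X : ℝ} (hX : 0 < X) (t : ℝ) :
    Lh T (fun n => FF ν n₀ h g n * conj (psi g n)) (X * N n₀) t =
      ang n₀ * T 0 n₀ * conj (psi g n₀) * ((N n₀ : ℝ) : ℂ) ^ ((t : ℂ) * Complex.I) *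
        Bs ν (h * g) X t := by
  have hn := lp_ne h0
  have hN := N_pos_real hn
  let e : {x : O × O // SQ x.1 ∧ Primary x.2} → O := fun x => n₀ * (x.1.1 * x.1.2 ^ 3)
  have he : Function.Injective e := fun x y hxy => by
    obtain ⟨h1, h2⟩ := dec_unique x.2.1 x.2.2 y.2.1 y.2.2 (mul_left_cancel₀ hn hxy)
    exact Subtype.ext (Prod.ext h1 h2)
  rw [Bs, Lh, ← tsum_mul_left, ← he.tsum_eq,
    ← (Subtype.val_injective (p := fun x : O × O => SQ x.1 ∧ Primary x.2)).tsum_eq]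
  · refine tsum_congr fun ⟨⟨c, d⟩, hc, hd⟩ => ?_
    have hm : Primary (c * d ^ 3) := hc.1.mul (hd.pow 3)
    have e1 := twist A (h := h) h0 hQ hν hg hc hd
    simp only [e]
    rw [if_pos ⟨hc, hd⟩, FF_mul ν hn, if_pos hm, hT.hk 0 n₀ c d h0 hc hd, ang_mul, psi_mul g n₀,
      map_mul N n₀, Nat.cast_mul, W_mul (mul_pos hX hN) hN (N_pos_real hm.ne_zero),
      mul_div_cancel_right₀ X hN.ne', nr_eq hm.ne_zero, Phi, map_mul (starRingEnd ℂ)]
    linear_combination ang n₀ * T 0 n₀ * conj (psi g n₀) *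
      ((N n₀ : ℝ) : ℂ) ^ ((t : ℂ) * Complex.I) * (ab d : ℂ) * tau c * ang (c * d ^ 3) *
        W X t (N (c * d ^ 3)) * e1
  · intro x hx
    by_contra hc
    exact hx (by beta_reduce; rw [if_neg fun e => hc ⟨⟨x, e⟩, rfl⟩, mul_zero])
  · intro x hx
    by_contra hc
    refine hx ?_
    by_cases h1 : n₀ ∣ x
    · obtain ⟨m, rfl⟩ := h1
      by_cases h2 : Primary m
      · have := hT.hz 0 n₀ m h0 h2 fun ⟨c, d, e1, e2, e3⟩ => hc ⟨⟨(c, d), e1, e2⟩, by rw [e3]⟩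
        simp only [this, mul_zero, zero_mul]
      · simp only [FF_mul ν hn, if_neg h2, mul_zero, zero_mul]
    · simp only [FF, h1, false_and, if_false, mul_zero, zero_mul]

end InsP

open InsP

theorem pIns (A : Alg) : S_Ins := by
  intro T c₀ C₀ J hT
  obtain ⟨n₀, h0, hne⟩ := hT.nz
  have hn := lp_ne h0
  have hp : 0 < ‖T 0 n₀‖ ^ 2 := pow_pos (norm_pos_iff.2 hne) 2
  refine ⟨2 * n₀ ^ 2, N n₀, (‖T 0 n₀‖ ^ 2)⁻¹, mul_ne_zero two_ne_zero (pow_ne_zero 2 hn),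
    N_pos_real hn, (inv_pos.2 hp).le,
    fun g hg => IsCoprime.mul_right hg.2 (lp_cop h0 hg.1.1).pow_right,
    fun Q ν ρ k g X t _ hQ hν hX hρ hk hd hg =>
      ⟨FF ν n₀ (ρ ^ 2 * k) g, FF_per A hn hQ hν hρ hk hd hg.2, fun n => ?_, le_of_eq ?_⟩⟩
  · unfold FF
    split_ifs
    · exact norm_F0 A hν _ _ hg.2 _
    · simp
  · rw [main A hT _ h0 hQ hν hg hX, norm_mul, norm_mul, norm_mul, norm_mul, norm_ang hn,
      Complex.norm_conj, norm_psi hg.1.ne_zero (lp_cop h0 hg.1.1).symm,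
      norm_cpow_I (N_pos_real hn), one_mul, mul_one, mul_one, mul_pow, ← mul_assoc,
      inv_mul_cancel₀ hp.ne', one_mul]

end Pool.Agent.P.MP_26a8c3_nt.QV
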