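import Pool.Agent.P.MP_26a8c3_nt.QV.St
import Pool.Agent.P.MP_26a8c3_nt.QE.EulO

/-! Convergence of the two sides of the summation formula. -/

namespace Pool.Agent.P.MP_26a8c3_nt.QV

open QO QA Finset
open scoped Classical ComplexConjugate

namespace SumP

lemma ang_zero : ang 0 = 0 := by simp [ang]

lemma ab_nonneg (n : O) : 0 ≤ ab n := norm_nonneg _

lemma ab_pos {n : O} (h : n ≠ 0) : 0 < ab n := norm_pos_iff.2 (toC_ne_zero h)

lemma norm_ang_le (n : O) : ‖ang n‖ ≤ 1 := by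
  rw [ang, norm_div, Complex.norm_real, Real.norm_of_nonneg (ab_nonneg n)]
  exact div_self_le_one _

lemma ab_le {n : O} (h : n ≠ 0) : ab n ≤ N n := by
  rw [ab, norm_toC]
  exact Real.sqrt_le_self_iff.2 (Or.inr (one_le_N h))

/-- decay of the kernel -/
lemma decay {J : ℝ → ℝ → ℂ} (h : Kr J) (t : ℝ) :
    ∃ D : ℝ, 0 ≤ D ∧ ∀ y : ℝ, 0 < y → ‖J t y‖ ≤ D * y ^ (-(3 / 2) : ℝ) := by
  obtain ⟨C, hC, h⟩ := h
  refine ⟨√(C * (1 + |t|) ^ 16), Real.sqrt_nonneg _, fun y hy => ?_⟩
  have h1 := h {0} (fun _ i => if i = 1 then 1 else 0) (fun _ => y) (1 / y) ((1 / y) ^ 3) t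
    (by positivity) (by positivity) (fun _ => by simp) (fun _ _ => by rw [one_div_mul_cancel hy.ne'])
    (fun _ _ => summable_of_ne_finset_zero (s := {1}) fun i hi => by
      rw [if_neg (by simpa using hi), norm_zero, zero_mul])
    fun z θ S hz hθ hS => by
      rw [sum_singleton]
      simp only [mul_ite, mul_one, mul_zero, sum_ite_eq']
      split_ifs with h1
      · have h2 : (1 : ℝ) ≤ z * (1 / y) := by simpa using hS 1 h1
        calc ‖θ 1‖ ^ 2 ≤ 1 := pow_le_one₀ (norm_nonneg _) (hθ 1)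
          _ ≤ (z * (1 / y)) ^ 3 := one_le_pow₀ h2
          _ = _ := by ring
      · rw [norm_zero, zero_pow two_ne_zero]
        positivity
  rw [sum_singleton, tsum_eq_single 1 fun i hi => by rw [if_neg hi, zero_mul]] at h1
  simp only [if_true, one_mul, map_one, Nat.cast_one] at h1
  refine (sq_le_sq₀ (norm_nonneg _) (by positivity)).1 (h1.trans (le_of_eq ?_))
  rw [mul_pow, Real.sq_sqrt (by positivity), ← Real.rpow_natCast (y ^ (-(3 / 2) : ℝ)),
    ← Real.rpow_mul hy.le, one_div, inv_pow, ← Real.rpow_natCast y, ← Real.rpow_neg hy.le]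
  norm_num

end SumP

open SumP

theorem pSum : S_Sum := by
  refine ⟨fun T c₀ C₀ J h F M X t hF hX => ?_, fun T c₀ C₀ J h x F M t β hF hβ => ?_⟩
  · have hM : 0 ≤ M := (norm_nonneg _).trans (hF 0)
    have hC := h.pos'
    refine Summable.of_norm_bounded ((QE.summable_N (t := 2) (by norm_num)).mul_left
      (C₀ * M * (Real.exp (3 ^ 2 / 4) * X ^ (3 : ℝ)))) fun n => ?_
    rcases eq_or_ne n 0 with rfl | hn
    · rw [ang_zero, zero_mul, zero_mul, zero_mul, norm_zero]
      positivity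
    · have h0 := N_pos_real hn
      have h1 : ‖T 0 n‖ ≤ C₀ * N n := (h.le 0 n hn).trans (mul_le_mul_of_nonneg_left (ab_le hn) hC)
      have h2 := norm_W_le hX h0 t 3
      have e : (N n : ℝ) ^ (-2 : ℝ) = N n * (N n : ℝ) ^ (-3 : ℝ) := by
        rw [show (-2 : ℝ) = 1 + -3 by norm_num, Real.rpow_add h0, Real.rpow_one]
      rw [norm_mul, norm_mul, norm_mul, e]
      calc ‖ang n‖ * ‖T 0 n‖ * ‖F n‖ * ‖W X t (N n)‖
          ≤ 1 * (C₀ * N n) * M * (Real.exp (3 ^ 2 / 4) * X ^ (3 : ℝ) * (N n : ℝ) ^ (-3 : ℝ)) := by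
            gcongr
            · exact norm_ang_le n
            · exact hF n
        _ = _ := by ring
  · have hM : 0 ≤ M := (norm_nonneg _).trans (hF 0)
    have hC := h.pos'
    obtain ⟨D, hD, hJ⟩ := decay h.kr t
    refine Summable.of_norm_bounded ((QE.summable_N (t := 3 / 2) (by norm_num)).mul_left
      (C₀ * M * (D * β ^ (-(3 / 2) : ℝ)))) fun n => ?_
    rcases eq_or_ne n 0 with rfl | hn
    · rw [ang_zero, map_zero, zero_mul, zero_mul, zero_mul, zero_mul, norm_zero]
      positivity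
    · have h0 := N_pos_real hn
      have h1 := h.le x n hn
      have h2 := hJ (N n * β) (mul_pos h0 hβ)
      have h3 := ab_pos hn
      rw [Real.mul_rpow h0.le hβ.le] at h2
      rw [norm_mul, norm_mul, norm_mul, norm_mul, Complex.norm_conj, norm_inv, Complex.norm_real,
        Real.norm_of_nonneg h3.le]
      calc ‖ang n‖ * ‖T x n‖ * (ab n)⁻¹ * ‖F n‖ * ‖J t (N n * β)‖
          ≤ 1 * (C₀ * ab n) * (ab n)⁻¹ * M *
            (D * ((N n : ℝ) ^ (-(3 / 2) : ℝ) * β ^ (-(3 / 2) : ℝ))) := by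
            gcongr
            · exact norm_ang_le n
            · exact hF n
        _ = _ := by field_simp

end Pool.Agent.P.MP_26a8c3_nt.QV
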