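import Mathlib

/-!
Separation of variables for a kernel given by two Mellin integrals.
-/

namespace Pool.Agent.P.MP_26a8c3_nt.QV

open MeasureTheory Finset Filter Complex
open scoped ComplexConjugate Topology

/-- weighted Cauchy-Schwarz inequality -/
theorem wcs {ι : Type*} (s : Finset ι) (z : ι → ℂ) (w : ι → ℝ) (hw : ∀ i ∈ s, 0 < w i) :
    ‖∑ i ∈ s, z i‖ ^ 2 ≤ (∑ i ∈ s, w i) * ∑ i ∈ s, ‖z i‖ ^ 2 / w i := by
  rcases s.eq_empty_or_nonempty with rfl | hs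
  · simp
  have h0 : 0 < ∑ i ∈ s, w i := sum_pos hw hs
  have h1 := sq_sum_div_le_sum_sq_div s (fun i => ‖z i‖) hw
  rw [div_le_iff₀ h0] at h1
  calc ‖∑ i ∈ s, z i‖ ^ 2 ≤ (∑ i ∈ s, ‖z i‖) ^ 2 := by
        gcongr
        exact norm_sum_le _ _
    _ ≤ _ := by rw [mul_comm]; exact h1

/-- the Mellin type transform on a vertical line -/
noncomputable def MT (ω : ℝ → ℂ) (ξ : ℝ) : ℂ :=
  ∫ u, ω u * cexp (-((u * Real.log ξ : ℝ) : ℂ) * I)

theorem norm_MT_le (ω : ℝ → ℂ) (ξ : ℝ) : ‖MT ω ξ‖ ≤ ∫ u, ‖ω u‖ := by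
  refine (norm_integral_le_integral_norm _).trans_eq (integral_congr_ae (.of_forall fun u => ?_))
  simp only [norm_mul, ← ofReal_neg, norm_exp_ofReal_mul_I, mul_one]

theorem int_MT {ω : ℝ → ℂ} (hω : Integrable ω) (ξ : ℝ) :
    Integrable fun u => ω u * cexp (-((u * Real.log ξ : ℝ) : ℂ) * I) := by
  refine hω.mul_bdd (c := 1) (Continuous.aestronglyMeasurable (by fun_prop))
    (.of_forall fun u => ?_)
  simp only [← ofReal_neg, norm_exp_ofReal_mul_I, le_refl]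

variable {ι κ : Type*}

/-- one block -/
theorem sepA (H : Finset κ) (B : Finset ι) (a : κ → ι → ℂ) (n : ι → ℝ) (s : κ → ℝ)
    (hn : ∀ x ∈ B, 0 < n x) (hs : ∀ h ∈ H, 0 < s h) {ω : ℝ → ℂ} (hω : Integrable ω)
    (b : ι → ℂ) (hb : ∀ x, ‖b x‖ ≤ 1) (c : κ → ℂ) (hc : ∀ h ∈ H, ‖c h‖ ≤ 1) {A : ℝ}
    (hA : ∀ b' : ι → ℂ, (∀ x, ‖b' x‖ ≤ 1) → ∑ h ∈ H, ‖∑ x ∈ B, a h x * b' x‖ ^ 2 ≤ A) :
    ∑ h ∈ H, ‖∑ x ∈ B, a h x * (c h * b x * MT ω (n x * s h))‖ ^ 2 ≤ (∫ u, ‖ω u‖) ^ 2 * A := by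
  set v : κ → ℂ := fun h => ∑ x ∈ B, a h x * (c h * b x * MT ω (n x * s h)) with hv
  set T : ℝ := ∑ h ∈ H, ‖v h‖ ^ 2 with hT
  have T0 : 0 ≤ T := sum_nonneg fun _ _ => sq_nonneg _
  have A0 : 0 ≤ A := (sum_nonneg fun _ _ => sq_nonneg _).trans (hA 0 (by simp))
  have e1 : (T : ℂ) = ∫ u, ∑ h ∈ H, ∑ x ∈ B, conj (v h) * (a h x * (c h * b x *
      (ω u * cexp (-((u * Real.log (n x * s h) : ℝ) : ℂ) * I)))) := by
    rw [integral_finsetSum _ fun h _ => integrable_finsetSum _ fun x _ =>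
      (((int_MT hω _).const_mul _).const_mul _).const_mul _, hT, ofReal_sum]
    refine sum_congr rfl fun h _ => ?_
    rw [integral_finsetSum _ fun x _ => (((int_MT hω _).const_mul _).const_mul _).const_mul _,
      ofReal_pow, ← conj_mul', hv]
    simp only [mul_sum, integral_const_mul, MT]
  have e2 : ∀ u : ℝ, ‖∑ h ∈ H, ∑ x ∈ B, conj (v h) * (a h x * (c h * b x *
      (ω u * cexp (-((u * Real.log (n x * s h) : ℝ) : ℂ) * I))))‖ ≤ ‖ω u‖ * (√T * √A) := by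
    intro u
    set b' : ι → ℂ := fun x => b x * cexp (-((u * Real.log (n x) : ℝ) : ℂ) * I) with hb'
    have h1 := hA b' fun x => by
      simp only [hb', norm_mul, ← ofReal_neg, norm_exp_ofReal_mul_I, mul_one, hb x]
    have h2 : ∀ h ∈ H, ‖∑ x ∈ B, conj (v h) * (a h x * (c h * b x *
        (ω u * cexp (-((u * Real.log (n x * s h) : ℝ) : ℂ) * I))))‖ ≤
        ‖ω u‖ * (‖v h‖ * ‖∑ x ∈ B, a h x * b' x‖) := by
      intro h hh
      have : ∑ x ∈ B, conj (v h) * (a h x * (c h * b x *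
          (ω u * cexp (-((u * Real.log (n x * s h) : ℝ) : ℂ) * I)))) =
          c h * cexp (-((u * Real.log (s h) : ℝ) : ℂ) * I) *
            (ω u * (conj (v h) * ∑ x ∈ B, a h x * b' x)) := by
        simp only [mul_sum]
        refine sum_congr rfl fun x hx => ?_
        rw [Real.log_mul (hn x hx).ne' (hs h hh).ne', hb', mul_add, ofReal_add, neg_add, add_mul,
          Complex.exp_add]
        ring
      rw [this]
      simp only [norm_mul, ← ofReal_neg, norm_exp_ofReal_mul_I, mul_one, RCLike.norm_conj]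
      exact mul_le_of_le_one_left (by positivity) (hc h hh)
    refine (norm_sum_le _ _).trans ((sum_le_sum h2).trans ?_)
    rw [← mul_sum]
    gcongr
    refine (Real.sum_mul_le_sqrt_mul_sqrt _ _ _).trans ?_
    gcongr
  have e3 : T ≤ (∫ u, ‖ω u‖) * (√T * √A) := by
    rw [← integral_mul_const]
    have := norm_integral_le_of_norm_le (hω.norm.mul_const (√T * √A)) (.of_forall e2)
    rwa [← e1, norm_real, Real.norm_of_nonneg T0] at this
  have I0 : 0 ≤ ∫ u, ‖ω u‖ := integral_nonneg fun _ => norm_nonneg _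
  rcases (Real.sqrt_nonneg T).eq_or_lt with h | h
  · have : T = 0 := by rw [← Real.sq_sqrt T0, ← h]; simp
    rw [this]
    positivity
  · have e4 : √T ≤ (∫ u, ‖ω u‖) * √A := by
      refine le_of_mul_le_mul_left ?_ h
      rw [Real.mul_self_sqrt T0]
      linarith
    calc T = √T ^ 2 := (Real.sq_sqrt T0).symm
      _ ≤ ((∫ u, ‖ω u‖) * √A) ^ 2 := by gcongr
      _ = _ := by rw [mul_pow, Real.sq_sqrt A0]

/-- all blocks -/
theorem sepB (H : Finset κ) (Bl : ℝ → Finset ι) (a : κ → ι → ℂ) (n : ι → ℝ) (s : κ → ℝ)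
    (hB : ∀ R x, x ∈ Bl R ↔ 0 < n x ∧ n x ≤ R) (ha : ∀ h x, ¬ 0 < n x → a h x = 0)
    {Y : ℝ} (hY : 0 < Y) (hs : ∀ h ∈ H, Y⁻¹ ≤ s h) {ω₀ ω₂ : ℝ → ℂ} (h₀ : Integrable ω₀)
    (h₂ : Integrable ω₂) (hω : ∀ ξ : ℝ, 0 < ξ → MT ω₀ ξ = ((ξ ^ 2)⁻¹ : ℝ) * MT ω₂ ξ) {A : ℝ}
    (hA : ∀ (j : ℕ) (b : ι → ℂ), (∀ x, ‖b x‖ ≤ 1) →
      ∑ h ∈ H, ‖∑ x ∈ Bl (2 ^ j * Y), a h x * b x‖ ^ 2 ≤ A * 8 ^ j)
    (hS : ∀ h ∈ H, Summable fun x => a h x * MT ω₀ (n x * s h)) :
    ∑ h ∈ H, ‖∑' x, a h x * MT ω₀ (n x * s h)‖ ^ 2 ≤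
      4 * A * ((∫ u, ‖ω₀ u‖) ^ 2 + 32 * (∫ u, ‖ω₂ u‖) ^ 2) := by
  classical
  have A0 : 0 ≤ A := by
    simpa using (sum_nonneg fun _ _ => sq_nonneg _).trans (hA 0 0 (by simp))
  have s0 : ∀ h ∈ H, 0 < s h := fun h hh => (inv_pos.2 hY).trans_le (hs h hh)
  set S : ℕ → κ → ℂ := fun j h => ∑ x ∈ Bl (2 ^ j * Y), a h x * MT ω₀ (n x * s h) with hSd
  set I₀ := ∫ u, ‖ω₀ u‖
  set I₂ := ∫ u, ‖ω₂ u‖
  have b0 : ∑ h ∈ H, ‖S 0 h‖ ^ 2 ≤ I₀ ^ 2 * A := by
    simpa [hSd] using sepA H (Bl (2 ^ 0 * Y)) a n s (fun x hx => ((hB _ _).1 hx).1) s0 h₀ 1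
      (by simp) 1 (by simp) (hA 0)
  have b1 : ∀ j : ℕ, ∑ h ∈ H, ‖S (j + 1) h - S j h‖ ^ 2 ≤ 8 * I₂ ^ 2 * A * (1 / 2) ^ j := by
    intro j
    have p : (0 : ℝ) < 2 ^ j * Y := by positivity
    have h1 := sepA H (Bl (2 ^ (j + 1) * Y)) a n s (fun x hx => ((hB _ _).1 hx).1) s0 h₂
      (fun x => if n x ≤ 2 ^ j * Y then 0 else (((2 ^ j * Y / n x) ^ 2 : ℝ) : ℂ))
      (fun x => by
        split_ifs with h
        · simp
        · rw [norm_real, Real.norm_of_nonneg (sq_nonneg _)]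
          push Not at h
          exact pow_le_one₀ (div_nonneg p.le (p.trans h).le) ((div_le_one (p.trans h)).2 h.le))
      (fun h => ((((Y * s h) ^ 2)⁻¹ : ℝ) : ℂ)) (fun h hh => by
        rw [norm_real, Real.norm_of_nonneg (by positivity)]
        refine inv_le_one_of_one_le₀ (one_le_pow₀ ?_)
        have := mul_le_mul_of_nonneg_left (hs h hh) hY.le
        rwa [mul_inv_cancel₀ hY.ne'] at this) (hA (j + 1))
    have h2 : ∀ h ∈ H, S (j + 1) h - S j h = (((1 / 4) ^ j : ℝ) : ℂ) *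
        ∑ x ∈ Bl (2 ^ (j + 1) * Y), a h x * (((((Y * s h) ^ 2)⁻¹ : ℝ) : ℂ) *
          (if n x ≤ 2 ^ j * Y then 0 else (((2 ^ j * Y / n x) ^ 2 : ℝ) : ℂ)) *
            MT ω₂ (n x * s h)) := by
      intro h hh
      have e : Bl (2 ^ j * Y) = (Bl (2 ^ (j + 1) * Y)).filter fun x => n x ≤ 2 ^ j * Y := by
        ext x
        rw [mem_filter, hB, hB]
        exact ⟨fun h => ⟨⟨h.1, h.2.trans (by rw [pow_succ]; nlinarith)⟩, h.2⟩,
          fun h => ⟨h.1.1, h.2⟩⟩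
      simp only [hSd]
      rw [e, sum_filter, ← sum_sub_distrib, mul_sum]
      refine sum_congr rfl fun x hx => ?_
      have nx := ((hB _ _).1 hx).1
      have sh := s0 h hh
      split_ifs with h3
      · simp
      · rw [hω _ (mul_pos nx sh), sub_zero]
        have : ((n x * s h) ^ 2)⁻¹ = (1 / 4) ^ j * (((Y * s h) ^ 2)⁻¹ * (2 ^ j * Y / n x) ^ 2) := by
          have e4 : (4 : ℝ) ^ j = (2 ^ j) ^ 2 := by
            rw [← pow_mul, mul_comm, pow_mul]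
            norm_num
          rw [one_div, inv_pow, e4]
          field_simp
        rw [this]
        push_cast
        ring
    rw [sum_congr rfl fun h hh => by rw [h2 h hh, norm_mul, mul_pow], ← mul_sum]
    refine (mul_le_mul_of_nonneg_left h1 (sq_nonneg _)).trans_eq ?_
    rw [norm_real, Real.norm_of_nonneg (by positivity)]
    have : ((1 / 4 : ℝ) ^ j) ^ 2 * 8 ^ j = (1 / 2) ^ j := by
      rw [← pow_mul, mul_comm j, pow_mul, ← mul_pow]
      norm_num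
    rw [← this]
    ring
  have b2 : ∀ J : ℕ, ∑ h ∈ H, ‖S J h‖ ^ 2 ≤ 4 * A * (I₀ ^ 2 + 32 * I₂ ^ 2) := by
    intro J
    set z : ℕ → κ → ℂ := fun j h => Nat.casesOn j (S 0 h) fun j => S (j + 1) h - S j h with hz
    have e : ∀ h, S J h = ∑ j ∈ range (J + 1), z j h := fun h => by
      rw [sum_range_succ']
      show _ = ∑ j ∈ range J, (S (j + 1) h - S j h) + S 0 h
      rw [sum_range_sub (fun j => S j h)]
      ring
    have g1 : ∀ (r : ℝ), 0 ≤ r → r < 1 → ∀ m, ∑ j ∈ range m, r ^ j ≤ (1 - r)⁻¹ := fun r h0 h1 m =>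
      sum_le_hasSum _ (fun _ _ => by positivity) (hasSum_geometric_of_lt_one h0 h1)
    have g2 := g1 (3 / 4) (by norm_num) (by norm_num) (J + 1)
    have g3 := g1 (2 / 3) (by norm_num) (by norm_num) J
    calc ∑ h ∈ H, ‖S J h‖ ^ 2
        ≤ ∑ h ∈ H, 4 * ∑ j ∈ range (J + 1), ‖z j h‖ ^ 2 / (3 / 4) ^ j := by
          refine sum_le_sum fun h _ => ?_
          rw [e]
          refine (wcs _ _ (fun j => (3 / 4 : ℝ) ^ j) fun _ _ => by positivity).trans ?_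
          gcongr
          linarith
      _ = 4 * (∑ j ∈ range J, (∑ h ∈ H, ‖S (j + 1) h - S j h‖ ^ 2) / (3 / 4) ^ (j + 1) +
            ∑ h ∈ H, ‖S 0 h‖ ^ 2) := by
          rw [← mul_sum, sum_comm, sum_range_succ']
          simp only [sum_div, pow_zero, div_one]
          rfl
      _ ≤ 4 * (∑ j ∈ range J, 32 / 3 * I₂ ^ 2 * A * (2 / 3) ^ j + I₀ ^ 2 * A) := by
          gcongr with j
          rw [div_le_iff₀ (by positivity)]
          refine (b1 j).trans_eq ?_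
          have : ((2 / 3 : ℝ)) ^ j * (3 / 4) ^ j = (1 / 2) ^ j := by
            rw [← mul_pow]
            norm_num
          rw [← this]
          ring
      _ ≤ _ := by
          rw [← mul_sum]
          have : 32 / 3 * I₂ ^ 2 * A * ∑ j ∈ range J, (2 / 3 : ℝ) ^ j ≤
              32 / 3 * I₂ ^ 2 * A * 3 := by
            gcongr
            linarith
          nlinarith
  have lim : ∀ h ∈ H, Tendsto (fun j => S j h) atTop (𝓝 (∑' x, a h x * MT ω₀ (n x * s h))) := by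
    intro h hh
    have h1 := (hS h hh).hasSum
    rw [← hasSum_subtype_iff_of_support_subset (s := {x | 0 < n x}) (fun x hx => by
      by_contra hn
      exact hx (by simp [ha h x hn]))] at h1
    have h2 : Tendsto (fun j : ℕ => (Bl (2 ^ j * Y)).subtype fun x => 0 < n x) atTop atTop := by
      refine tendsto_atTop_finset_of_monotone (fun i j hij x hx => ?_) fun x => ?_
      · rw [mem_subtype, hB] at hx ⊢
        exact ⟨hx.1, hx.2.trans (by gcongr; norm_num)⟩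
      · obtain ⟨j, hj⟩ := pow_unbounded_of_one_lt (n x / Y) (one_lt_two (α := ℝ))
        refine ⟨j, ?_⟩
        rw [mem_subtype, hB]
        exact ⟨x.2, ((div_lt_iff₀ hY).1 hj).le⟩
    refine (Tendsto.comp h1 h2).congr fun j => ?_
    exact sum_subtype_of_mem (fun x => a h x * MT ω₀ (n x * s h)) fun x hx => ((hB _ _).1 hx).1
  exact le_of_tendsto' (tendsto_finsetSum _ fun h hh => (lim h hh).norm.pow 2) b2

end Pool.Agent.P.MP_26a8c3_nt.QV
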