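import Pool.Agent.P.MP_26a8c3_nt.QV.St
import Pool.Agent.P.MP_26a8c3_nt.QV.Sep
import Pool.Agent.P.MP_26a8c3_nt.QO.Sym

/-! The large sieve for theta coefficients. -/

namespace Pool.Agent.P.MP_26a8c3_nt.QV

open QO QA Finset
open scoped Classical ComplexConjugate

namespace TSP

/-- the elements supported at the primes over six, with at most one factor two -/
noncomputable def EE (R : ℝ) : Finset O :=
  (units6 ×ˢ range 2 ×ˢ range (⌊Real.log (1 + R)⌋₊ + 1)).image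
    fun y => y.1 * lam ^ y.2.2 * (-2) ^ y.2.1

lemma card_EE {R ε : ℝ} (hR : 0 ≤ R) (hε : 0 < ε) :
    ((EE R).card : ℝ) ≤ 12 * (1 / ε + 1) * (1 + R) ^ ε := by
  have h1 : (EE R).card ≤ 12 * (⌊Real.log (1 + R)⌋₊ + 1) := by
    refine card_image_le.trans (le_of_eq ?_)
    rw [card_product, card_product, card_units6, card_range, card_range]; ring
  have h2 : (⌊Real.log (1 + R)⌋₊ : ℝ) ≤ Real.log (1 + R) :=
    Nat.floor_le (Real.log_nonneg (by linarith))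
  have h3 := Real.log_le_rpow_div (show 0 ≤ 1 + R by linarith) hε
  have h4 : 1 ≤ (1 + R) ^ ε := Real.one_le_rpow (by linarith) hε.le
  have h5 : ((EE R).card : ℝ) ≤ 12 * (⌊Real.log (1 + R)⌋₊ + 1) := by exact_mod_cast h1
  calc _ ≤ 12 * ((1 + R) ^ ε / ε + (1 + R) ^ ε) := by linarith
    _ = _ := by ring

lemma mem_EE {R : ℝ} {u : O} {k b : ℕ} (hu : IsUnit u) (hb : b < 2) (hk : (3 : ℝ) ^ k ≤ R) :
    u * lam ^ k * (-2) ^ b ∈ EE R := by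
  refine mem_image.2 ⟨(u, b, k), ?_, rfl⟩
  simp only [mem_product, mem_units6, mem_range]
  refine ⟨hu, hb, Nat.lt_succ_of_le (Nat.le_floor ?_)⟩
  have h3 : (1 : ℝ) ≤ Real.log 3 := by
    rw [Real.le_log_iff_exp_le (by norm_num)]
    exact Real.exp_one_lt_d9.le.trans (by norm_num)
  have h4 : Real.log (3 ^ k) ≤ Real.log (1 + R) := Real.log_le_log (by positivity) (by linarith)
  rw [Real.log_pow] at h4
  nlinarith [Nat.cast_nonneg (α := ℝ) k]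

lemma split_two {c : O} (hc : SQ c) : ∃ (b : ℕ) (m : O), b < 2 ∧ SQO m ∧ c = (-2) ^ b * m := by
  by_cases h : Od c
  · exact ⟨0, c, by norm_num, ⟨hc, h⟩, by simp⟩
  · rw [od_iff, not_not] at h
    obtain ⟨m, rfl⟩ := (neg_dvd.2 h : (-2 : O) ∣ c)
    exact ⟨1, m, by norm_num, ⟨hc.right primary_neg_two, (IsCoprime.neg_right_iff _ _).1 hc.coprime.symm⟩, by simp⟩

lemma shape (A : Alg) {T : O → O → ℂ} {c₀ C₀ : ℝ} {J : ℝ → ℝ → ℂ} (hT : Th T c₀ C₀ J) {x n : O}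
    {R : ℝ} (hR : (N n : ℝ) ≤ R) (h0 : n ≠ 0) (h1 : T x n ≠ 0) :
    ∃ y ∈ EE R ×ˢ (ball R).erase 0, ∃ m ∈ bq R, n = y.1 * y.2 ^ 3 * m ∧
      ‖T x n * (ab n : ℂ)⁻¹‖ ^ 2 ≤ C₀ ^ 2 * ((N y.2 : ℝ)⁻¹ ^ 2 * (N m : ℝ)⁻¹) := by
  obtain ⟨u, k, p, hu, hp, rfl⟩ := exists_decomp h0
  have hL : Lp (u * lam ^ k) := ⟨k, hu.mul_left_dvd.2 dvd_rfl⟩
  have n0 : u * lam ^ k ≠ 0 := left_ne_zero_of_mul h0
  obtain ⟨c, d, hc, hd, rfl⟩ : ∃ c d, SQ c ∧ Primary d ∧ p = c * d ^ 3 := by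
    by_contra h
    exact h1 (hT.hz x _ p hL hp h)
  obtain ⟨b, m, hb, hm, hcm⟩ := split_two hc
  have le : ∀ z, z ∣ u * lam ^ k * (c * d ^ 3) → (N z : ℝ) ≤ R := fun z hz =>
    le_trans (by exact_mod_cast N_le_of_dvd hz h0) hR
  have d0 := hd.ne_zero
  have c0 := hc.ne_zero
  have m0 := hm.1.ne_zero
  refine ⟨(u * lam ^ k * (-2) ^ b, d), ?_, m, ?_, by rw [hcm]; ring, ?_⟩
  · rw [mem_product, mem_erase, mem_ball]
    refine ⟨mem_EE hu hb ?_, d0, le d ⟨u * lam ^ k * (c * d ^ 2), by ring⟩⟩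
    have := le (lam ^ k) ⟨u * (c * d ^ 3), by ring⟩
    simpa using this
  · rw [bq, mem_filter, mem_ball]
    exact ⟨le m ⟨u * lam ^ k * ((-2) ^ b * d ^ 3), by rw [hcm]; ring⟩, hm⟩
  · have a1 := ab_pos n0
    have a2 := ab_pos c0
    have a3 := ab_pos d0
    have e1 : ‖T x (u * lam ^ k * (c * d ^ 3))‖ ≤ ab d * (C₀ * ab (u * lam ^ k)) := by
      rw [hT.hk x _ c d hL hc hd, norm_mul, norm_mul, norm_mul, A.r4.2.1 c hc, mul_one,
        Complex.norm_real, Real.norm_of_nonneg a3.le]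
      exact mul_le_mul (mul_le_of_le_one_left a3.le (norm_chi_le _ _)) (hT.le x _ n0)
        (norm_nonneg _) a3.le
    have e2 : ‖T x (u * lam ^ k * (c * d ^ 3)) * (ab (u * lam ^ k * (c * d ^ 3)) : ℂ)⁻¹‖ ≤
        C₀ * ((ab d ^ 2)⁻¹ * (ab c)⁻¹) := by
      rw [norm_mul, norm_inv, Complex.norm_real, Real.norm_of_nonneg (ab_nonneg _),
        ab_mul (u * lam ^ k), ab_mul c, ab_pow]
      refine (mul_le_mul_of_nonneg_right e1 (by positivity)).trans_eq ?_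
      field_simp
    have e3 : (N c : ℝ)⁻¹ ≤ (N m : ℝ)⁻¹ :=
      inv_anti₀ (N_pos_real m0) (by exact_mod_cast N_le_of_dvd ⟨_, by rw [hcm, mul_comm]⟩ c0)
    refine (pow_le_pow_left₀ (norm_nonneg _) e2 2).trans ?_
    rw [mul_pow, mul_pow, inv_pow (ab c), ab_sq, ab_sq]
    gcongr

end TSP

open TSP in
theorem pTS (A : Alg) (hl : S_LS) (hh : S_Har) : S_TS := by
  intro T c₀ C₀ J hT ε hε
  obtain ⟨C₁, hC₁, h₁⟩ := hl
  obtain ⟨C₂, hC₂, h₂, -⟩ := hh (ε / 5) (by positivity)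
  refine ⟨(12 * (1 / (ε / 5) + 1) * C₂) ^ 2 * C₂ * C₁ * C₀ ^ 2, by positivity,
    fun x P R θ S hP hR hθ hS => ?_⟩
  set a : O → ℂ := fun n => θ n * T x n * (ab n : ℂ)⁻¹ with ha
  set S' := S.filter fun n => a n ≠ 0 with hS'
  set I := EE R ×ˢ (ball R).erase 0 with hI
  set H := C₂ * (1 + R) ^ (ε / 5) with hH
  have hex : ∀ n ∈ S', ∃ y ∈ I, ∃ m ∈ bq R, n = y.1 * y.2 ^ 3 * m ∧
      ‖a n‖ ^ 2 ≤ C₀ ^ 2 * ((N y.2 : ℝ)⁻¹ ^ 2 * (N m : ℝ)⁻¹) := by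
    intro n hn
    rw [hS', mem_filter] at hn
    obtain ⟨y, hy, m, hm, e, hb⟩ := shape A hT (x := x) (hS n hn.1)
      (by rintro rfl; exact hn.2 (by simp [ha, ab])) (fun h => hn.2 (by simp [ha, h]))
    refine ⟨y, hy, m, hm, e, le_trans ?_ hb⟩
    simp only [ha]
    rw [mul_assoc, norm_mul (θ n)]
    exact pow_le_pow_left₀ (by positivity) (mul_le_of_le_one_left (norm_nonneg _) (hθ n)) 2
  choose! φ hφ ψ hψ he hb using hex
  set M : O × O → Finset O := fun y => (S'.filter fun n => φ n = y).image ψ with hM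
  have hMb : ∀ y, ∀ m ∈ M y, m ∈ bq R ∧
      ‖a (y.1 * y.2 ^ 3 * m)‖ ^ 2 ≤ C₀ ^ 2 * ((N y.2 : ℝ)⁻¹ ^ 2 * (N m : ℝ)⁻¹) := by
    intro y m hm
    obtain ⟨n, hn, rfl⟩ := mem_image.1 hm
    obtain ⟨h3, rfl⟩ := mem_filter.1 hn
    exact ⟨hψ n h3, by rw [← he n h3]; exact hb n h3⟩
  have e1 : ∀ h, ∑ n ∈ S, a n * eta h n = ∑ y ∈ I, eta h (y.1 * y.2 ^ 3) *
      ∑ m ∈ M y, a (y.1 * y.2 ^ 3 * m) * eta h m := by
    intro h
    rw [← sum_filter_of_ne (p := fun n => a n ≠ 0) fun n _ hn => left_ne_zero_of_mul hn,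
      ← sum_fiberwise_of_maps_to hφ]
    refine sum_congr rfl fun y _ => ?_
    rw [hM, sum_image, mul_sum]
    · refine sum_congr rfl fun n hn => ?_
      obtain ⟨h3, rfl⟩ := mem_filter.1 hn
      have h4 := congrArg (eta h) (he n h3)
      rw [← he n h3, h4, eta_mul]
      ring
    · intro n hn n' hn' e
      obtain ⟨hn, e1⟩ := mem_filter.1 (mem_coe.1 hn)
      obtain ⟨hn', e2⟩ := mem_filter.1 (mem_coe.1 hn')
      rw [he n hn, he n' hn', e1, e2, e]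
  have w0 : ∀ y ∈ I, 0 < (N y.2 : ℝ)⁻¹ := fun y hy =>
    inv_pos.2 (N_pos_real (mem_erase.1 (mem_product.1 hy).2).1)
  have H0 : 0 ≤ H := by positivity
  have L0 : 0 ≤ LL P R := by unfold LL; positivity
  have e2 : ∑ y ∈ I, (N y.2 : ℝ)⁻¹ ≤ 12 * (1 / (ε / 5) + 1) * (1 + R) ^ (ε / 5) * H := by
    rw [hI, sum_product]
    simp only [sum_const, nsmul_eq_mul]
    refine mul_le_mul (card_EE hR (by positivity)) (le_trans ?_ (h₂ R hR))
      (sum_nonneg fun _ _ => by positivity) (by positivity)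
    exact sum_le_sum_of_subset_of_nonneg (erase_subset _ _) fun _ _ _ => by positivity
  have e3 : ∀ y ∈ I, ∑ h ∈ bq P, ‖eta h (y.1 * y.2 ^ 3) *
      ∑ m ∈ M y, a (y.1 * y.2 ^ 3 * m) * eta h m‖ ^ 2 / (N y.2 : ℝ)⁻¹ ≤
        C₁ * LL P R * C₀ ^ 2 * H * (N y.2 : ℝ)⁻¹ := by
    intro y hy
    have f1 := h₁ P R (M y) (bq P) (fun m => a (y.1 * y.2 ^ 3 * m)) hP hR
      (fun m hm => by
        have := (hMb y m hm).1
        rw [bq, mem_filter, mem_ball] at this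
        exact this.symm)
      (fun m hm => by
        rw [bq, mem_filter, mem_ball] at hm
        exact hm.symm)
    have f2 : ∑ m ∈ M y, ‖a (y.1 * y.2 ^ 3 * m)‖ ^ 2 ≤ C₀ ^ 2 * ((N y.2 : ℝ)⁻¹ ^ 2 * H) := by
      refine (sum_le_sum fun m hm => (hMb y m hm).2).trans ?_
      rw [← mul_sum, ← mul_sum]
      gcongr
      refine le_trans ?_ (h₂ R hR)
      exact sum_le_sum_of_subset_of_nonneg (fun m hm => (mem_filter.1 (hMb y m hm).1).1)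
        fun _ _ _ => by positivity
    rw [← sum_div, div_le_iff₀ (w0 y hy)]
    calc _ ≤ ∑ h ∈ bq P, ‖∑ m ∈ M y, a (y.1 * y.2 ^ 3 * m) * eta h m‖ ^ 2 := by
          refine sum_le_sum fun h _ => ?_
          rw [norm_mul]
          exact pow_le_pow_left₀ (by positivity)
            (mul_le_of_le_one_left (norm_nonneg _) (norm_eta_le _ _)) 2
      _ ≤ C₁ * LL P R * (C₀ ^ 2 * ((N y.2 : ℝ)⁻¹ ^ 2 * H)) := f1.trans (by gcongr)
      _ = _ := by ring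
  have e4 : (1 + R) ^ ε = ((1 + R) ^ (ε / 5)) ^ 5 := by
    rw [← Real.rpow_mul_natCast (by linarith)]; norm_num
  calc ∑ h ∈ bq P, ‖∑ n ∈ S, a n * eta h n‖ ^ 2
      ≤ ∑ h ∈ bq P, (∑ y ∈ I, (N y.2 : ℝ)⁻¹) * ∑ y ∈ I, ‖eta h (y.1 * y.2 ^ 3) *
          ∑ m ∈ M y, a (y.1 * y.2 ^ 3 * m) * eta h m‖ ^ 2 / (N y.2 : ℝ)⁻¹ :=
        sum_le_sum fun h _ => by rw [e1 h]; exact wcs I _ _ w0
    _ ≤ (∑ y ∈ I, (N y.2 : ℝ)⁻¹) * (C₁ * LL P R * C₀ ^ 2 * H * ∑ y ∈ I, (N y.2 : ℝ)⁻¹) := by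
        rw [← mul_sum, sum_comm, mul_sum I _ (C₁ * LL P R * C₀ ^ 2 * H)]
        exact mul_le_mul_of_nonneg_left (sum_le_sum e3) (sum_nonneg fun _ _ => by positivity)
    _ ≤ (12 * (1 / (ε / 5) + 1) * (1 + R) ^ (ε / 5) * H) * (C₁ * LL P R * C₀ ^ 2 * H *
          (12 * (1 / (ε / 5) + 1) * (1 + R) ^ (ε / 5) * H)) := by
        have : 0 ≤ ∑ y ∈ I, (N y.2 : ℝ)⁻¹ := sum_nonneg fun _ _ => by positivity
        gcongr
    _ = _ := by rw [e4, hH]; ring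

end Pool.Agent.P.MP_26a8c3_nt.QV
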