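import Pool.Agent.P.MP_26a8c3_nt.QV.St
import Pool.Agent.P.MP_26a8c3_nt.QO.Sym
import Pool.Agent.P.MP_26a8c3_nt.QA.JL
import Pool.Agent.P.MP_26a8c3_nt.QE.EulO

/-! The summation formula for the theta coefficients with the log-Gaussian weight. -/

namespace Pool.Agent.P.MP_26a8c3_nt.QV

open QO QA
open scoped ComplexConjugate

namespace ThP

theorem kr_J : Kr J := by
  obtain ⟨C, hC, h⟩ := J_l2
  refine ⟨C, hC.le, fun s b β V d t hV hd h0 hβ hs hb => ?_⟩
  exact h s b (fun i => (N i : ℝ)) β V d t hV hd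
    (fun x _ i hi => N_pos_real fun e => hi (e ▸ h0 x)) hβ hs fun z hz θ hθ S hS => hb z θ S hz hθ hS

theorem summ {a : O → ℂ} {C : ℝ} (h : ∀ n, n ≠ 0 → ‖a n‖ ≤ C * ab n) :
    Summable fun n => ‖a n‖ * ab n ^ (-5 : ℝ) := by
  have hC : 0 ≤ C := by simpa using (norm_nonneg _).trans (h 1 one_ne_zero)
  refine Summable.of_nonneg_of_le
    (fun n => mul_nonneg (norm_nonneg _) (Real.rpow_nonneg (ab_nonneg n) _)) (fun n => ?_)
    ((QE.summable_N (t := 2) one_lt_two).mul_left C)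
  by_cases hn : n = 0
  · simp [hn, ab]
  have hp := ab_pos hn
  calc _ ≤ C * ab n * ab n ^ (-5 : ℝ) := by gcongr; exact h n hn
    _ = _ := by
      rw [← ab_sq, ← Real.rpow_natCast, ← Real.rpow_mul hp.le, mul_assoc, mul_comm (ab n),
        ← Real.rpow_add_one hp.ne']
      norm_num

end ThP

theorem pTh : S_Th := by
  rintro ⟨T, n₀, b, C, ζ, hb, hζ, hn, hn', per, hk, hz, le, t1, vor⟩
  have hC : 0 ≤ C := by simpa using (norm_nonneg _).trans (le 0 1 one_ne_zero)
  refine ⟨T, b ^ 2, C, J, by positivity, hC, ⟨n₀, hn, hn'⟩, per, hk, hz, le, t1, ThP.kr_J,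
    fun γ X t hγ hX => ⟨ζ * ang γ ^ 2 * (X : ℂ) ^ (1 / 2 + t * Complex.I), ?_, ?_⟩⟩
  · rw [norm_mul, norm_mul, hζ, norm_pow, norm_ang hγ, Complex.norm_cpow_eq_rpow_re_of_pos hX,
      one_pow, one_mul, one_mul, ← Real.rpow_natCast, ← Real.rpow_mul hX.le]
    simp
  rintro α δ hα ⟨k, hk⟩
  have h := voronoi (a := fun n => ang n * T 0 n * el (n * α) (9 * γ)) (r := ab)
    (b := fun n => conj (ang n) * T γ n * el (-(n * δ)) (9 * γ)) (r' := ab)
    (c := ζ * ang γ ^ 2 * chi α γ) hb (N_pos_real hγ)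
    (fun n h => ab_pos fun e => h (by simp [e, ang]))
    (fun n h => ab_pos fun e => h (by simp [e, ang]))
    (ThP.summ (C := C) fun n h => by simpa [norm_ang h] using le 0 n h)
    (ThP.summ (C := C) fun n h => by simpa [norm_ang h] using le γ n h)
    (fun v hv => by
      have := vor α (9 * k) γ δ (by linear_combination hk) hα (dvd_mul_right _ _) hγ v hv
      push_cast at this ⊢
      exact this) hX t
  simp only [ab_sq] at h
  rw [Lh, h, Rh]
  simp only [mul_right_comm _ (ab _ : ℂ)⁻¹]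
  ring

end Pool.Agent.P.MP_26a8c3_nt.QV
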