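import Pool.Agent.P.MP_26a8c3_nt.QO.Top
import Pool.Agent.P.MP_26a8c3_nt.QO.Res

/-! Interface statements of the layer which bounds the theta side moment. -/

namespace Pool.Agent.P.MP_26a8c3_nt.QV

open QO QA Finset
open scoped Classical ComplexConjugate

noncomputable section

/-- squarefree primary odd elements of bounded norm -/
def bq (P : ℝ) : Finset O := (ball P).filter SQO

/-- all divisors -/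
def dvs (q : O) : Finset O := (ball (N q)).filter (· ∣ q)

/-- the kernel of the dual sum separates the variables -/
def Kr (J : ℝ → ℝ → ℂ) : Prop :=
  ∃ C : ℝ, 0 ≤ C ∧ ∀ (s : Finset O) (b : O → O → ℂ) (β : O → ℝ) (V d t : ℝ), 0 < V → 0 ≤ d →
    (∀ h, b h 0 = 0) → (∀ h ∈ s, 1 ≤ V * β h) →
    (∀ h ∈ s, Summable fun i => ‖b h i‖ * (N i : ℝ) ^ (-2 : ℝ)) →
    (∀ (z : ℝ) (θ : O → ℂ) (S : Finset O), 1 ≤ z → (∀ i, ‖θ i‖ ≤ 1) →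
      (∀ i ∈ S, (N i : ℝ) ≤ z * V) → ∑ h ∈ s, ‖∑ i ∈ S, θ i * b h i‖ ^ 2 ≤ d * z ^ 3) →
    ∑ h ∈ s, ‖∑' i, b h i * J t (N i * β h)‖ ^ 2 ≤ C * (1 + |t|) ^ 16 * d

/-- the twisted sum of theta coefficients -/
def Lh (T : O → O → ℂ) (F : O → ℂ) (X t : ℝ) : ℂ :=
  ∑' n : O, ang n * T 0 n * F n * W X t (N n)

/-- the dual sum -/
def Rh (T : O → O → ℂ) (J : ℝ → ℝ → ℂ) (x : O) (F : O → ℂ) (t β : ℝ) : ℂ :=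
  ∑' n : O, conj (ang n) * T x n * (ab n : ℂ)⁻¹ * F n * J t (N n * β)

/-- the coefficients of the cubic theta function at the cusps, with the summation formula -/
structure Th (T : O → O → ℂ) (c₀ C₀ : ℝ) (J : ℝ → ℝ → ℂ) : Prop where
  pos : 0 < c₀
  pos' : 0 ≤ C₀
  nz : ∃ n₀, Lp n₀ ∧ T 0 n₀ ≠ 0
  per : ∀ x y, 3 ∣ x - y → T x = T y
  hk : ∀ x n c d, Lp n → SQ c → Primary d →
    T x (n * (c * d ^ 3)) = chi c (3 * n) * ab d * tau c * T x n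
  hz : ∀ x n m, Lp n → Primary m → (¬ ∃ c d, SQ c ∧ Primary d ∧ m = c * d ^ 3) → T x (n * m) = 0
  le : ∀ x n, n ≠ 0 → ‖T x n‖ ≤ C₀ * ab n
  t1 : ∀ n, T 0 n * el n 9 = T 0 n
  kr : Kr J
  vor : ∀ (γ : O) (X t : ℝ), γ ≠ 0 → 0 < X → ∃ ζ : ℂ, ‖ζ‖ ^ 2 ≤ X ∧
    ∀ α δ : O, Primary α → 9 * γ ∣ α * δ - 1 →
      Lh T (fun n => el (n * α) (9 * γ)) X t =
        ζ * chi α γ * Rh T J γ (fun n => el (-(n * δ)) (9 * γ)) t (X * c₀ / (N γ : ℝ) ^ 2)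

/-- the dual sum after the summation over the residues modulo `h` -/
def Dd (T : O → O → ℂ) (c₀ : ℝ) (J : ℝ → ℝ → ℂ) (q δ h : O) (X t : ℝ) : ℂ :=
  Rh T J q (fun n => el (-(n * δ)) (9 * q) * eta h n) t (X * c₀ / ((N q : ℝ) * N h) ^ 2)

/-- the summation formula with the log-Gaussian weight -/
def S_Th : Prop := S_Theta → ∃ T c₀ C₀ J, Th T c₀ C₀ J

/-- convergence -/
def S_Sum : Prop :=
  (∀ T c₀ C₀ J, Th T c₀ C₀ J → ∀ (F : O → ℂ) (M X t : ℝ), (∀ n, ‖F n‖ ≤ M) → 0 < X →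
    Summable fun n : O => ang n * T 0 n * F n * W X t (N n)) ∧
  ∀ T c₀ C₀ J, Th T c₀ C₀ J → ∀ (x : O) (F : O → ℂ) (M t β : ℝ), (∀ n, ‖F n‖ ≤ M) →
    0 < β → Summable fun n : O => conj (ang n) * T x n * (ab n : ℂ)⁻¹ * F n * J t (N n * β)

/-- harmonic sums -/
def S_Har : Prop :=
  ∀ ε : ℝ, 0 < ε → ∃ C : ℝ, 0 ≤ C ∧
    (∀ R : ℝ, 0 ≤ R → ∑ n ∈ ball R, (N n : ℝ)⁻¹ ≤ C * (1 + R) ^ ε) ∧
    ∀ q : O, q ≠ 0 → ∑ r ∈ dvs q, (N r : ℝ) ≤ C * N q * (N q : ℝ) ^ ε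

/-- decomposition of the modulus -/
def S_Dec : Prop :=
  ∀ Q h : O, Q ≠ 0 → 36 ∣ Q → h ≠ 0 → ∃ ρ k g : O, ρ ≠ 0 ∧ k ≠ 0 ∧ k ∣ Q * ρ ∧ SQO g ∧
    IsCoprime g (Q * ρ) ∧ h = ρ ^ 2 * k * g

/-- the sextic twist of one fraction -/
def S_Tw : Prop :=
  ∀ T c₀ C₀ J, Th T c₀ C₀ J → ∀ (a q δ h : O) (X t : ℝ), 0 < X → q ≠ 0 → Primary a →
    SQO h → IsCoprime h q → 9 * q ∣ a * h ^ 2 * δ - 1 →
    ‖Lh T (fun n => el (n * a) (9 * q) * conj (psi h n)) X t‖ ^ 2 ≤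
      X * ‖Dd T c₀ J q δ h X t‖ ^ 2

/-- expansion of a periodic function -/
def S_Exp : Prop :=
  ∀ T c₀ C₀ J, Th T c₀ C₀ J → ∀ (q h : O) (F : O → ℂ) (X t : ℝ), 0 < X → q ≠ 0 →
    SQO h → IsCoprime h q → Per (9 * q) F → (∀ n, ‖F n‖ ≤ 1) →
    ‖Lh T (fun n => F n * conj (psi h n)) X t‖ ^ 2 ≤
      2 * X * ∑ r ∈ dvs q, ∑ δ ∈ res (9 * r), ‖Dd T c₀ J r δ h X t‖ ^ 2

/-- the large sieve for theta coefficients -/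
def S_TS : Prop :=
  ∀ T c₀ C₀ J, Th T c₀ C₀ J → ∀ ε : ℝ, 0 < ε → ∃ C : ℝ, 0 ≤ C ∧
    ∀ (x : O) (P R : ℝ) (θ : O → ℂ) (S : Finset O), 0 ≤ P → 0 ≤ R → (∀ n, ‖θ n‖ ≤ 1) →
      (∀ n ∈ S, (N n : ℝ) ≤ R) →
      ∑ h ∈ bq P, ‖∑ n ∈ S, θ n * T x n * (ab n : ℂ)⁻¹ * eta h n‖ ^ 2 ≤ C * (1 + R) ^ ε * LL P R

/-- the mean square of the dual sums -/
def S_D : Prop :=
  ∀ T c₀ C₀ J, Th T c₀ C₀ J → ∀ ε : ℝ, 0 < ε → ∃ C : ℝ, 0 ≤ C ∧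
    ∀ (q δ : O) (P X t V : ℝ), q ≠ 0 → 1 ≤ P → 0 < X → ((N q : ℝ) * P) ^ 2 / (X * c₀) ≤ V →
      ∑ h ∈ bq P, ‖Dd T c₀ J q δ h X t‖ ^ 2 ≤ C * (1 + |t|) ^ 16 * (1 + V) ^ ε * LL P V

/-- insertion of the theta coefficients -/
def S_Ins : Prop :=
  ∀ T c₀ C₀ J, Th T c₀ C₀ J → ∃ (m₀ : O) (s₀ C : ℝ), m₀ ≠ 0 ∧ 0 < s₀ ∧ 0 ≤ C ∧
    (∀ g, SQO g → IsCoprime g m₀) ∧
    ∀ (Q : O) (ν : O → ℂ) (ρ k g : O) (X t : ℝ), Q ≠ 0 → 36 ∣ Q → IsNu Q ν → 0 < X → ρ ≠ 0 →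
      k ≠ 0 → k ∣ Q * ρ → SQO g → ∃ F : O → ℂ, Per (9 * (m₀ * Q * ρ)) F ∧ (∀ n, ‖F n‖ ≤ 1) ∧
        ‖Bs ν (ρ ^ 2 * k * g) X t‖ ^ 2 ≤
          C * ‖Lh T (fun n => F n * conj (psi g n)) (X * s₀) t‖ ^ 2

/-- the bound on a ball -/
def VBall : Prop :=
  ∀ Q : O, Q ≠ 0 → 36 ∣ Q → ∀ ε : ℝ, 0 < ε → ∃ C : ℝ, 0 ≤ C ∧
    ∀ (ν : O → ℂ) (P X t : ℝ), IsNu Q ν → 1 ≤ P → 0 < X →
      ∑ h ∈ (ball P).erase 0, ‖Bs ν h X t‖ ^ 2 ≤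
        C * (1 + |t|) ^ 16 * (2 + P + P ^ 2 / X) ^ ε * X * LL P (P ^ 2 / X)

/-- summation over the decomposition -/
def S_Ball : Prop := ∀ T c₀ C₀ J, Th T c₀ C₀ J → VBall

/-- the Gaussian weight -/
def S_Gau : Prop := VBall → S_V

end

theorem v_of (h1 : S_Th) (h2 : S_Ball) (h3 : S_Gau) (h : S_Theta) : S_V := by
  obtain ⟨T, c₀, C₀, J, hT⟩ := h1 h
  exact h3 (h2 T c₀ C₀ J hT)

end Pool.Agent.P.MP_26a8c3_nt.QV
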