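import Pool.Agent.P.MP_26a8c3_nt.QO.Sym
import Pool.Agent.P.MP_26a8c3_nt.QV.St

/-! The matrix at a cusp `a₁ / q + 9 a₂ / h`, the normal form of a fraction, and the sextic
twist of one fraction. -/

namespace Pool.Agent.P.MP_26a8c3_nt.QV

open QO QA Finset
open scoped Classical ComplexConjugate

lemma el_split {q h : O} (hq : q ≠ 0) (hh : h ≠ 0) (n x y : O) :
    el (n * (x * h + 9 * y * q)) (9 * (q * h)) = el (n * x) (9 * q) * el (n * y) h := by
  rw [← el_frac _ _ (mul_ne_zero (by norm_num) hq) hh]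
  congr 1 <;> ring

/-- the matrix attached to the fraction `a₁ / q + 9 a₂ / h` -/
theorem cusp (h1 : S_R1) (h2 : S_R2) {a₁ a₂ a₃ d₁ q h : O} (ha : Primary a₁) (hq : q ≠ 0)
    (hh : Primary h) (hc : IsCoprime h q) (e1 : 9 * q ∣ d₁ * a₁ * h ^ 2 - 1)
    (e2 : h ∣ 81 * q ^ 2 * a₂ * a₃ - 1) :
    ∃ α β γ δ : O, α * δ - β * γ = 1 ∧ Primary α ∧ 9 ∣ β ∧ γ = q * h ∧ 3 ∣ γ - q ∧
      (∀ n, el (n * α) (9 * γ) = el (n * a₁) (9 * q) * el (n * a₂) h) ∧
      (∀ n, el (-(n * δ)) (9 * γ) = el (-(n * d₁)) (9 * q) * el (-(n * a₃)) h) ∧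
      chi α γ = chi (a₁ * h) q * chi h (9 * q) * chi h a₂ := by
  have c9 : IsCoprime (9 * q) h := by
    refine IsCoprime.mul_left ?_ hc.symm
    simpa [show (3 : O) ^ 2 = 9 by norm_num] using (hh.isCoprime_three.symm.pow_left (m := 2))
  have hα : Primary (a₁ * h + 9 * a₂ * q) := (ha.mul hh).of_dvd_sub ⟨3 * a₂ * q, by ring⟩
  obtain ⟨b, hb⟩ : 9 * q * h ∣ (a₁ * h + 9 * a₂ * q) * (d₁ * h + 9 * a₃ * q) - 1 := by
    refine c9.mul_dvd ?_ ?_
    · obtain ⟨c, hc⟩ := e1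
      exact ⟨c + a₁ * h * a₃ + a₂ * (d₁ * h + 9 * a₃ * q), by linear_combination hc⟩
    · obtain ⟨c, hc⟩ := e2
      exact ⟨c + a₁ * (d₁ * h + 9 * a₃ * q) + 9 * a₂ * q * d₁, by linear_combination hc⟩
  refine ⟨a₁ * h + 9 * a₂ * q, 9 * b, q * h, d₁ * h + 9 * a₃ * q, by linear_combination hb, hα,
    dvd_mul_right _ _, rfl, ?_, fun n => el_split hq hh.ne_zero n _ _, fun n => ?_, ?_⟩
  · rw [show q * h - q = (h - 1) * q by ring]
    exact hh.mul_right q
  · simpa only [neg_mul] using el_split hq hh.ne_zero (-n) d₁ a₃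
  · rw [chi_mul, h2 q _ _ hα (ha.mul hh) ⟨a₂ * q, by ring⟩ ⟨9 * a₂, by ring⟩, h1 _ h hα hh,
      chi_congr (n := h) (y := 9 * q * a₂) ⟨a₁, by ring⟩, chi_mul h (9 * q), mul_assoc]

/-- the inverse modulo `9 q` exists -/
lemma exists_d {a₁ q h : O} (ha : Primary a₁) (hq : IsCoprime a₁ q) (hh : Primary h)
    (hc : IsCoprime h q) : ∃ d₁, 9 * q ∣ d₁ * a₁ * h ^ 2 - 1 := by
  have p := ha.mul (hh.pow 2)
  have c : IsCoprime (a₁ * h ^ 2) (9 * q) := by
    refine IsCoprime.mul_right ?_ (hq.mul_left hc.pow_left)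
    simpa [show (3 : O) ^ 2 = 9 by norm_num] using (p.isCoprime_three.pow_right (n := 2))
  obtain ⟨u, v, e⟩ := c
  exact ⟨u, -v, by linear_combination e⟩

/-- normal form of a fraction -/
theorem frac (a : O) {q₁ : O} (hq : q₁ ≠ 0) : ∃ a₁ q : O, Primary a₁ ∧ IsCoprime a₁ q ∧ q ≠ 0 ∧
    q ∣ q₁ ∧ ∀ (n : O) (z : ℂ), z * el n 9 = z →
      z * el (n * a) (9 * q₁) = z * el (n * a₁) (9 * q) := by
  obtain ⟨a', q', ea, eq, hu⟩ := extract_gcd a q₁
  have g0 : gcd a q₁ ≠ 0 := fun h => hq (by rw [eq, h, zero_mul])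
  have q0 : q' ≠ 0 := fun h => hq (by rw [eq, h, mul_zero])
  have c : IsCoprime a' q' := (gcd_isUnit_iff _ _).1 hu
  have e1 : ∀ n, el (n * a) (9 * q₁) = el (n * a') (9 * q') := fun n => by
    rw [← el_mul_cancel (n * a') (9 * q') g0]
    congr 1
    · conv_lhs => rw [ea]
      ring
    · conv_lhs => rw [eq]
      ring
  obtain ⟨b, hb, cb, e2⟩ : ∃ b, ¬ lam ∣ b ∧ IsCoprime b q' ∧ ∀ (n : O) (z : ℂ), z * el n 9 = z →
      z * el (n * a') (9 * q') = z * el (n * b) (9 * q') := by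
    by_cases h : lam ∣ a'
    · refine ⟨a' + q', fun k => prime_lam.not_isUnit (c.isUnit_of_dvd' h (by simpa using dvd_sub k h)),
        by simpa using c.add_mul_left_left 1, fun n z hz => ?_⟩
      rw [mul_add, el_add, el_mul_cancel n 9 q0, mul_comm (el _ _), ← mul_assoc, hz]
    · exact ⟨a', h, c, fun _ _ _ => rfl⟩
  obtain ⟨u, u1, hp⟩ := exists_primary hb
  refine ⟨u * b, u * q', hp, (isCoprime_mul_unit_left u1 _ _).2 cb, mul_ne_zero u1.ne_zero q0,
    (u1.mul_left_dvd).2 ⟨gcd a q₁, by rw [mul_comm]; exact eq⟩, fun n z hz => ?_⟩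
  rw [e1, e2 n z hz, ← el_mul_cancel (n * b) (9 * q') u1.ne_zero]
  congr 2 <;> ring

namespace TwP

lemma half {h u : O} (hh : h ≠ 0) (hu : IsCoprime u h) {f : O → ℂ} {x : O}
    (h0 : ¬ IsCoprime x h → f x = 0) :
    sm h (fun y => if h ∣ u * x * y - 1 then f x else 0) = f x := by
  by_cases hx : IsCoprime x h
  · obtain ⟨y, v, e⟩ := hu.mul_left hx
    have hy : h ∣ u * x * y - 1 := ⟨-v, by linear_combination e⟩
    rw [sm_single hh (fun a b k => ?_) y fun z hz => if_neg fun k => hz ?_, if_pos hy]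
    · have : h ∣ u * x * a - 1 ↔ h ∣ u * x * b - 1 := dvd_congr (by
        rw [show u * x * a - 1 - (u * x * b - 1) = u * x * (a - b) by ring]; exact k.mul_left _)
      simp only [this]
    · refine (hu.mul_left hx).symm.dvd_of_dvd_mul_left ?_
      rw [show u * x * (z - y) = u * x * z - 1 - (u * x * y - 1) by ring]
      exact dvd_sub k hy
  · simp [h0 hx, sm_eq_res hh]

/-- inversion of the summation variable -/
lemma swap {h u : O} (hh : h ≠ 0) (hu : IsCoprime u h) {f g : O → ℂ}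
    (f0 : ∀ x, ¬ IsCoprime x h → f x = 0) (g0 : ∀ x, ¬ IsCoprime x h → g x = 0)
    (e : ∀ x y, h ∣ u * x * y - 1 → f x = g y) : sm h f = sm h g := by
  rw [← sm_congr fun x => half hh hu (f0 x), sm_comm hh hh, ← sm_congr fun y => half hh hu (g0 y)]
  refine sm_congr fun y => sm_congr fun x => ?_
  rw [mul_right_comm u y x]
  split_ifs with k
  exacts [e x y k, rfl]

lemma tsum_sm {h : O} (hh : h ≠ 0) (c : O → ℂ) {a : O → ℂ} {z : O → O}
    (hs : ∀ x, Summable fun n => a n * el (z n * x) h) :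
    sm h (fun x => c x * ∑' n, a n * el (z n * x) h) = ∑' n, a n * ft c h (z n) := by
  simp only [ft, sm_eq_res hh, ← tsum_mul_left]
  rw [← Summable.tsum_finsetSum fun x _ => (hs x).mul_left (c x)]
  refine tsum_congr fun n => ?_
  rw [mul_sum]
  exact sum_congr rfl fun x _ => by rw [mul_comm x]; ring

lemma conj_psi_eq (A : Alg) {h : O} (hh : SQO h) :
    ∃ κ : ℂ, ‖κ‖ * ab h = 1 ∧ ∀ n, conj (psi h n) = κ * ft (psi h) h n := by
  have o1 : Od 1 := isCoprime_one_left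
  have b1 : bb 1 = 1 := by simp [bb, A.r4.1]
  have nb : ‖bb h‖ = 1 := by
    rw [bb, norm_mul, norm_mul, Complex.norm_conj, norm_chi hh.1.ne_zero hh.2.symm,
      norm_ang hh.1.ne_zero, A.r4.2.1 h hh.1]
    norm_num
  have ng := A.gam.2.2.1 h hh.2
  have nm : ‖mu h‖ = 1 := norm_eq_one_of_pow two_ne_zero (mu_sq hh.1.2)
  have p := ab_pos hh.1.ne_zero
  have ne : (ab h : ℂ) * gam h * bb h ≠ 0 := by
    rw [← norm_pos_iff, norm_mul, norm_mul, nb, ng, Complex.norm_of_nonneg p.le]; simpa using p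
  refine ⟨mu h / (ab h * gam h * bb h), ?_, fun n => ?_⟩
  · rw [norm_div, norm_mul, norm_mul, nb, ng, nm, Complex.norm_of_nonneg p.le]
    field_simp
  · have e := A.r4.2.2.2 h 1 n hh ⟨sq_one, o1⟩ isCoprime_one_right
    simp only [mu_one, mul_one, psi_one_left, map_one, ab_one, Complex.ofReal_one, b1] at e
    rw [div_mul_eq_mul_div, e, mul_div_cancel_left₀ _ ne]

end TwP

open TwP

theorem pTw (A : Alg) (hS : S_Sum) : S_Tw := by
  intro T c₀ C₀ J hT a q δ h X t hX hq ha hh hc hd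
  have h0 := hh.1.ne_zero
  have hp := hh.1.1
  obtain ⟨κ, hκ, eκ⟩ := conj_psi_eq A hh
  obtain ⟨ζ, hζ, hv⟩ := hT.vor (q * h) X t (mul_ne_zero hq h0) hX
  have c9 : IsCoprime (9 * q) h := by
    refine IsCoprime.mul_left ?_ hc.symm
    simpa [show (3 : O) ^ 2 = 9 by norm_num] using (hp.isCoprime_three.symm.pow_left (m := 2))
  set β := X * c₀ / ((N q : ℝ) * N h) ^ 2 with hβ
  have β0 : 0 < β := div_pos (mul_pos hX hT.pos) (pow_pos (mul_pos (N_pos_real hq) (N_pos_real h0)) 2)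
  set ω := ζ * (chi (a * h) q * chi h (9 * q)) with hω
  have e1 := tsum_sm h0 (psi h) (z := fun n => n)
    (a := fun n => ang n * T 0 n * el (n * a) (9 * q) * W X t (N n)) fun x =>
      (hS.1 T c₀ C₀ J hT (fun n => el (n * a) (9 * q) * el (n * x) h) 1 X t (by simp) hX).congr
        fun n => by ring
  have e2 := tsum_sm h0 (eta h) (z := fun n => -n)
    (a := fun n => conj (ang n) * T q n * (ab n : ℂ)⁻¹ * el (-(n * δ)) (9 * q) * J t (N n * β))
    fun x => (hS.2 T c₀ C₀ J hT q (fun n => el (-(n * δ)) (9 * q) * el (-n * x) h) 1 t β (by simp)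
      β0).congr fun n => by ring
  have e3 := swap (u := (9 * q) ^ 2) h0 c9.pow_left
    (f := fun x => psi h x * ∑' n, ang n * T 0 n * el (n * a) (9 * q) * W X t (N n) * el (n * x) h)
    (g := fun y => ω * (eta h y * ∑' n, conj (ang n) * T q n * (ab n : ℂ)⁻¹ *
      el (-(n * δ)) (9 * q) * J t (N n * β) * el (-n * y) h))
    (fun x k => by rw [(psi_eq_zero h0).2 k, zero_mul])
    (fun x k => by rw [(eta_eq_zero h0).2 k, zero_mul, mul_zero]) fun x y k => by
      obtain ⟨α, b, γ, d, k1, k2, ⟨b', rfl⟩, rfl, k5, k6, k7, k8⟩ := cusp A.r1 A.r2 (a₂ := x)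
        (a₃ := y) (d₁ := δ) ha hq hp hc (by rwa [show δ * a * h ^ 2 = a * h ^ 2 * δ by ring])
        (by rwa [show 81 * q ^ 2 * x * y = (9 * q) ^ 2 * x * y by ring])
      have k9 := hv α d k2 ⟨b', by linear_combination k1⟩
      simp only [Lh, Rh, k6, k7, k8, hT.per _ _ k5, map_mul, Nat.cast_mul] at k9
      have l1 : eta h x * eta h y = 1 := by
        have := eta_congr k
        rwa [eta_one, eta_mul, eta_mul, eta_pow, eta_sq h0, cop_of c9, one_mul] at this
      have l2 : eta h y = psi h x * chi h x := by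
        have := eta_sq h0 x
        rw [cop_of ((eta_eq_zero h0).not_left.1 (left_ne_zero_of_mul_eq_one l1))] at this
        rw [← psi_sq h0, ← pow_succ', psi_cube h0]
        linear_combination eta h x * l1 - eta h y * this
      rw [show (∑' n, ang n * T 0 n * el (n * a) (9 * q) * W X t (N n) * el (n * x) h) = _ from
        (tsum_congr fun n => by ring).trans k9, l2, hω]
      rw [show (∑' n, conj (ang n) * T q n * (ab n : ℂ)⁻¹ * el (-(n * δ)) (9 * q) * J t (N n * β) *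
        el (-n * y) h) = ∑' n, conj (ang n) * T q n * (ab n : ℂ)⁻¹ *
          (el (-(n * δ)) (9 * q) * el (-(n * y)) h) * J t (N n * β) from
        tsum_congr fun n => by rw [neg_mul n y]; ring]
      ring
  rw [e1, sm_mul_left, e2] at e3
  have e4 : Lh T (fun n => el (n * a) (9 * q) * conj (psi h n)) X t =
      κ * ω * (eta h (-1) * (ab h * gam h)) * Dd T c₀ J q δ h X t := by
    rw [Lh, show (∑' n, ang n * T 0 n * (el (n * a) (9 * q) * conj (psi h n)) * W X t (N n)) =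
      κ * ∑' n, ang n * T 0 n * el (n * a) (9 * q) * W X t (N n) * ft (psi h) h n by
        rw [← tsum_mul_left]; exact tsum_congr fun n => by rw [eκ]; ring, e3, Dd, Rh, mul_assoc (κ * ω),
      mul_assoc κ, ← tsum_mul_left (a := eta h (-1) * _)]
    congr 2
    refine tsum_congr fun n => ?_
    rw [A.qr.1 h _ hh.1.2 hh.2, show -n = -1 * n by ring, eta_mul]
    ring
  have n1 : ‖κ * ω * (eta h (-1) * (ab h * gam h))‖ ≤ ‖ζ‖ := by
    simp only [hω, norm_mul, A.gam.2.2.1 h hh.2, Complex.norm_of_nonneg (ab_nonneg h)]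
    have := ab_nonneg h
    calc _ ≤ ‖κ‖ * (‖ζ‖ * (1 * 1)) * (1 * (ab h * 1)) := by
          gcongr
          exacts [norm_chi_le _ _, norm_chi_le _ _, norm_eta_le _ _]
      _ = _ := by linear_combination ‖ζ‖ * hκ
  rw [e4, norm_mul, mul_pow]
  gcongr
  exact (pow_le_pow_left₀ (norm_nonneg _) n1 2).trans hζ

end Pool.Agent.P.MP_26a8c3_nt.QV
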