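import Pool.Agent.P.MP_26a8c3_nt.QV.Th
import Pool.Agent.P.MP_26a8c3_nt.QV.Ball
import Pool.Agent.P.MP_26a8c3_nt.QV.Har
import Pool.Agent.P.MP_26a8c3_nt.QV.Ins
import Pool.Agent.P.MP_26a8c3_nt.QV.Exp
import Pool.Agent.P.MP_26a8c3_nt.QV.Sum
import Pool.Agent.P.MP_26a8c3_nt.QV.Tw
import Pool.Agent.P.MP_26a8c3_nt.QV.D
import Pool.Agent.P.MP_26a8c3_nt.QV.TS
import Pool.Agent.P.MP_26a8c3_nt.QV.Gau

/-! The bound for the theta side moment. -/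

namespace Pool.Agent.P.MP_26a8c3_nt.QV

open QO

theorem vv (A : Alg) (hθ : S_Theta) (hl : S_LS) : S_V :=
  v_of pTh (pBall pDec (pIns A) (pExp pSum (pTw A pSum)) (pD (pTS A hl pHar)) pHar) pGau hθ

end Pool.Agent.P.MP_26a8c3_nt.QV
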