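import Pool.Agent.P.MP_26a8c3_nt.QO.Sym
import Pool.Agent.P.MP_26a8c3_nt.QO.Res

/-! The local character sums in the twisted Voronoi formula. -/

namespace Pool.Agent.P.MP_26a8c3_nt.QV

open Pool.Agent.P.MP_26a8c3_nt.QO
open scoped Classical ComplexConjugate

noncomputable section

/-- an inverse of `x` modulo `q` -/
def iv (q x : O) : O := if h : IsCoprime x q then h.choose else 0

lemma iv_spec {q x : O} (h : IsCoprime x q) : q ∣ x * iv q x - 1 := by
  obtain ⟨b, e⟩ := h.choose_spec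
  rw [iv, dif_pos h]
  exact ⟨-b, by linear_combination e⟩

lemma cop_of_inv {q x y : O} (h : q ∣ x * y - 1) : IsCoprime x q := by
  obtain ⟨c, e⟩ := h
  exact ⟨y, -c, by linear_combination e⟩

lemma iv_uniq {q x y : O} (h : q ∣ x * y - 1) : q ∣ iv q x - y := by
  have h1 := iv_spec (cop_of_inv h)
  rw [show iv q x - y = y * (x * iv q x - 1) - iv q x * (x * y - 1) by ring]
  exact dvd_sub (h1.mul_left _) (h.mul_left _)

lemma per_iv {q : O} {F : O → ℂ} (hF : Per q F) : Per q fun x => cop q x * F (iv q x) := by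
  intro x y e
  by_cases h : IsCoprime y q
  · have h2 : q ∣ x * iv q y - 1 := by
      rw [show x * iv q y - 1 = (x - y) * iv q y + (y * iv q y - 1) by ring]
      exact dvd_add (e.mul_right _) (iv_spec h)
    simp only [(isNu_cop q).per x y e, hF _ _ (iv_uniq h2)]
  · simp only [(isNu_cop q).per x y e, cop_of_not h, zero_mul]

lemma sm_ind {q : O} (hq : q ≠ 0) {F : O → ℂ} (hF : Per q F) (x : O) :
    sm q (fun y => if q ∣ x * y - 1 then F y else 0) = cop q x * F (iv q x) := by
  by_cases h : IsCoprime x q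
  · rw [sm_single hq _ (iv q x), if_pos (iv_spec h), cop_of h, one_mul]
    · intro y hy
      exact if_neg fun e => hy (dvd_sub_comm.1 (iv_uniq e))
    · intro a b e
      have : q ∣ x * a - 1 ↔ q ∣ x * b - 1 :=
        dvd_congr (by rw [show x * a - 1 - (x * b - 1) = x * (a - b) by ring]; exact e.mul_left _)
      simp only [this, hF a b e]
  · rw [cop_of_not h, zero_mul, sm_congr (H := fun _ => 0) fun y => if_neg fun e => h (cop_of_inv e),
      sm_zero]

/-- inversion permutes the units -/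
lemma sm_iv {q : O} (hq : q ≠ 0) {F : O → ℂ} (hF : Per q F) :
    sm q (fun x => cop q x * F (iv q x)) = sm q fun x => cop q x * F x := by
  simp only [← sm_ind hq hF]
  rw [sm_comm hq hq]
  refine sm_congr fun y => ?_
  simp only [mul_comm _ y]
  exact sm_ind hq (per_const q (F y)) y

/-- Parseval -/
lemma parseval {q : O} (hq : q ≠ 0) {F : O → ℂ} (hF : Per q F) :
    ∑ y ∈ res q, ‖ft F q y‖ ^ 2 = N q * ∑ x ∈ res q, ‖F x‖ ^ 2 := by
  have h : sm q (fun y => ft F q y * conj (ft F q y)) =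
      N q * sm q fun x => F x * conj (F x) := by
    have e : ∀ y, ft F q y * conj (ft F q y) =
        sm q fun x => conj (F x) * (ft F q y * el (-(x * y)) q) := fun y => by
      conv_lhs => rw [ft.eq_1 F q y, conj_sm hq, ← ft.eq_1 F q y, ← sm_mul_left]
      exact sm_congr fun x => by rw [map_mul, el_neg]; ring
    rw [sm_congr e, sm_comm hq hq, ← sm_mul_left]
    exact sm_congr fun x => by rw [sm_mul_left, ft_inv hq hF]; ring
  simp only [sm_eq_res hq, Complex.mul_conj, Complex.normSq_eq_norm_sq] at h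
  exact_mod_cast h

/-- Fourier coefficients of `θ` modulo `g` -/
def cf (θ : O → ℂ) (g y : O) : ℂ := (N g : ℂ)⁻¹ * ft θ g (-y)

lemma per_cf (θ : O → ℂ) (g : O) : Per g (cf θ g) := fun x y e => by
  rw [cf, cf, per_ft θ g (-x) (-y) (by rw [neg_sub_neg]; exact dvd_sub_comm.1 e)]

lemma cf_inv {g : O} (hg : g ≠ 0) {θ : O → ℂ} (h : Per g θ) (n : O) :
    θ n = sm g fun y => cf θ g y * el (n * y) g := by
  have h1 := ft_inv hg h n
  have hP : Per g fun y => ft θ g y * el (-(n * y)) g :=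
    (per_ft θ g).mul fun x y e => el_congr (by
      rw [show -(n * x) - -(n * y) = -n * (x - y) by ring]; exact e.mul_left _)
  rw [← sm_scale hP (u := -1) isCoprime_one_left.neg_left] at h1
  simp only [neg_mul, one_mul, mul_neg, neg_neg] at h1
  simp only [cf, mul_assoc, sm_mul_left, h1]
  rw [← mul_assoc, inv_mul_cancel₀ (by exact_mod_cast (N_pos hg).ne'), one_mul]

lemma sum_cf_le {g : O} (hg : g ≠ 0) {θ : O → ℂ} (h : Per g θ) (h1 : ∀ x, ‖θ x‖ ≤ 1) :
    ∑ y ∈ res g, ‖cf θ g y‖ ^ 2 ≤ 1 := by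
  have hN := N_pos_real hg
  have h3 : sm g (fun y => (‖cf θ g y‖ ^ 2 : ℝ)) =
      sm g fun y => ((‖ft θ g y‖ ^ 2 / N g ^ 2 : ℝ) : ℂ) := by
    rw [← sm_scale (F := fun y => ((‖ft θ g y‖ ^ 2 / N g ^ 2 : ℝ) : ℂ))
      ((per_ft θ g).comp fun z => ((‖z‖ ^ 2 / N g ^ 2 : ℝ) : ℂ)) (u := -1)
      isCoprime_one_left.neg_left]
    exact sm_congr fun y => by simp [cf, div_eq_inv_mul, mul_pow]
  rw [sm_eq_res hg, sm_eq_res hg] at h3
  have h4 : ∑ y ∈ res g, ‖cf θ g y‖ ^ 2 = ∑ y ∈ res g, ‖ft θ g y‖ ^ 2 / N g ^ 2 := by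
    exact_mod_cast h3
  have h2 : ∑ x ∈ res g, ‖θ x‖ ^ 2 ≤ N g := by
    refine (Finset.sum_le_card_nsmul _ _ 1 fun x _ => pow_le_one₀ (norm_nonneg _) (h1 x)).trans ?_
    simp [card_res]
  rw [h4, ← Finset.sum_div, parseval hg h, div_le_one (by positivity), sq]
  gcongr

lemma per_neg_el (q n : O) : Per q fun y => el (-(n * y)) q := fun x y e =>
  el_congr (by rw [show -(n * x) - -(n * y) = -n * (x - y) by ring]; exact e.mul_left _)

lemma psi_mul_chi {h : O} (h0 : h ≠ 0) (x : O) : psi h x * chi h x = eta h x := by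
  by_cases hx : IsCoprime x h
  · have e := chi_mul_conj h0 x
    rw [cop_of hx] at e
    rw [psi]; linear_combination eta h x * e
  · rw [(psi_eq_zero h0).2 hx, (eta_eq_zero h0).2 hx, zero_mul]

/-- the sum at the primes of `h` -/
lemma part_h (A : Alg) {h v k : O} (hh : SQO h) (hv : IsCoprime v h) (n : O) :
    sm h (fun x => psi h x * chi h (x * k) * el (-(n * iv h (v * x))) h) =
      chi h k * eta h v * eta h (-1) * (ab h * gam h) * eta h n := by
  have h0 := hh.1.ne_zero
  have hE : Per h fun y => eta h y * el (-(n * y)) h := (isNu_eta h0).per.mul (per_neg_el h n)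
  have h1 := sm_iv h0 hE
  have h2 : sm h (fun y => cop h y * (eta h y * el (-(n * y)) h)) = ft (eta h) h (-n) := by
    refine sm_congr fun y => ?_
    rw [show y * -n = -(n * y) by ring]
    by_cases hy : IsCoprime y h
    · rw [cop_of hy, one_mul]
    · rw [(eta_eq_zero h0).2 hy]; simp
  rw [h2, A.qr.1 h (-n) hh.1.2 hh.2, ← sm_scale (per_iv hE) hv, ← neg_one_mul n, eta_mul] at h1
  rw [show chi h k * eta h v * eta h (-1) * (ab h * gam h) * eta h n =
    chi h k * eta h v * (eta h (-1) * eta h n * (ab h * gam h)) by ring, ← h1, ← sm_mul_left]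
  refine sm_congr fun x => ?_
  by_cases hx : IsCoprime x h
  · have h3 := eta_congr (iv_spec (hv.mul_left hx))
    have h4 := eta_sq h0 x
    rw [eta_mul, eta_mul, eta_one] at h3
    rw [cop_of hx] at h4
    rw [cop_of (hv.mul_left hx), chi_mul, ← mul_assoc, psi_mul_chi h0]
    linear_combination (chi h k * el (-(n * iv h (v * x))) h) *
      (eta h v * eta h (iv h (v * x)) * h4 - eta h x * h3)
  · rw [(psi_eq_zero h0).2 hx, cop_of_not fun e => hx e.of_mul_left_right]; simp

/-- the Gauss sum expansion of the sextic symbol -/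
lemma psi_exp (A : Alg) {h : O} (hh : SQO h) : ∃ κ : ℂ, ‖κ‖ * ab h = 1 ∧
    ∀ n, conj (psi h n) = κ * sm h fun x => psi h x * el (n * x) h := by
  have h0 := hh.1.ne_zero
  have h1 : SQO 1 := ⟨sq_one, isCoprime_one_left⟩
  have hb : ‖bb h‖ = 1 := by
    rw [bb, norm_mul, norm_mul, Complex.norm_conj, norm_chi h0 hh.2.symm, norm_ang h0,
      A.r4.2.1 h hh.1]; simp
  have hb1 : bb 1 = 1 := by simp [bb, A.r4.1]
  have hg := A.gam.2.2.1 h hh.2
  have hm : ‖mu h‖ = 1 := norm_eq_one_of_pow two_ne_zero (mu_sq hh.1.2)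
  have ha := ab_pos h0
  refine ⟨mu h / (ab h * gam h * bb h), ?_, fun n => ?_⟩
  · rw [norm_div, norm_mul, norm_mul, hb, hg, hm, Complex.norm_real, Real.norm_of_nonneg ha.le]
    field_simp
  · have e := A.r4.2.2.2 h 1 n hh h1 isCoprime_one_right
    simp only [mu_one, psi_one_left, map_one, mul_one, ab_one, hb1, Complex.ofReal_one, ft,
      mul_comm _ n] at e
    have h2 : gam h ≠ 0 := by rw [← norm_ne_zero_iff, hg]; exact one_ne_zero
    have h3 : bb h ≠ 0 := by rw [← norm_ne_zero_iff, hb]; exact one_ne_zero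
    have h4 := ab_neC h0
    rw [div_mul_eq_mul_div, e]
    field_simp

lemma summable_mul_bdd {a f : O → ℂ} (ha : Summable a) {C : ℝ} (hf : ∀ n, ‖f n‖ ≤ C) :
    Summable fun n => a n * f n :=
  .of_norm_bounded (ha.norm.mul_right C) fun n => by
    rw [norm_mul]; exact mul_le_mul_of_nonneg_left (hf n) (norm_nonneg _)

lemma tsum_sm1 {a : O → ℂ} (ha : Summable a) {h : O} (h0 : h ≠ 0)
    (c : O → ℂ) (E : O → O → ℂ) (hE : ∀ x n, ‖E x n‖ ≤ 1) :
    ∑' n, a n * (sm h fun x => c x * E x n) = sm h fun x => c x * ∑' n, a n * E x n := by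
  simp only [sm_eq_res h0, Finset.mul_sum, ← tsum_mul_left, mul_left_comm (a _)]
  exact Summable.tsum_finsetSum fun x _ => (summable_mul_bdd ha (hE x)).mul_left _

/-- the sextic twist becomes a quadratic twist on the dual side -/
theorem loc (A : Alg) {h u : O} {a b : O → ℂ} {ζ : ℂ} (hh : SQO h) (hu : IsCoprime u h)
    (ha : Summable a) (hb : Summable b)
    (H : ∀ x y, h ∣ u * x * y - 1 →
      ∑' n, a n * el (n * x) h = ζ * chi h x * ∑' n, b n * el (-(n * y)) h) :
    ‖∑' n, a n * conj (psi h n)‖ = ‖ζ‖ * ‖∑' n, b n * eta h n‖ := by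
  have h0 := hh.1.ne_zero
  obtain ⟨κ, hκ, e⟩ := psi_exp A hh
  have h1 : ∑' n, a n * conj (psi h n) =
      κ * ζ * (eta h u * eta h (-1) * (ab h * gam h)) * ∑' n, b n * eta h n := by
    have h2 := tsum_sm1 hb h0 (fun x => psi h x * chi h (x * 1))
      (fun x n => el (-(n * iv h (u * x))) h) fun _ _ => (norm_el _ _).le
    simp only [part_h A hh hu, chi_one, one_mul, mul_left_comm (b _), tsum_mul_left] at h2
    simp only [e, mul_left_comm (a _), tsum_mul_left]
    rw [tsum_sm1 ha h0 (psi h) (fun x n => el (n * x) h) fun _ _ => (norm_el _ _).le, mul_assoc,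
      mul_assoc, h2, ← sm_mul_left h ζ]
    congr 1
    refine sm_congr fun x => ?_
    by_cases hx : IsCoprime x h
    · rw [H x _ (iv_spec (hu.mul_left hx)), mul_one]; ring
    · rw [(psi_eq_zero h0).2 hx]; simp
  rw [h1]
  simp only [norm_mul, norm_eta h0 hu, norm_eta h0 isCoprime_one_left.neg_left,
    A.gam.2.2.1 h hh.2, Complex.norm_real, Real.norm_of_nonneg (ab_nonneg h), one_mul, mul_one]
  rw [mul_right_comm ‖κ‖, hκ, one_mul]

end

end Pool.Agent.P.MP_26a8c3_nt.QV
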